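import Mathlib
import Pool.Agent.V5helper41.BA.Main
import Pool.Agent.V5helper41.BA.Ex4

/-!
# Beilinson's conjecture on ranks, in all the odd degrees, for products of a diagonal cubic with a
# variety of Artin–Tate type

Let `M` be a finite set of primes `≡ 1` modulo `9` and `F = ℚ(ω, ∛l : l ∈ M)`, a Galois extension of
`ℚ` of the degree `2 * 3 ^ #M` (`ω` is a root of unity of order `3`).  `D` runs through the squarefree
numbers, prime to `3` and to `M`, not `±1` modulo `9`, that are divisible by exactly one prime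
`2` modulo `3`.  Let `X_a` be a diagonal cubic of the dimension `1`, `3` or `5`,

  `a_0 x_0³ + … + a_{n+1} x_{n+1}³ = 0`, `n = 2 c + 1`, `c ≤ 2`,

such that one of the `a_i` is `± D` or `± D²` and the others are, up to the sign, products of powers of
elements of `M`.  Let `Y` be *any* projective variety over `ℚ` whose cohomology is of Artin–Tate type
and becomes a sum of Tate twists over `F`; precisely (`IsArtinTate`): there are complex representations
`ρ_k` of `Gal(F/ℚ)` with `#Y(L) = ∑_k tr(ρ_k(Frob_p^r)) (p^r)^k` for the fields `L` with `p^r`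
elements, `p` prime to `B`.  Examples (proved below): the projective spaces, the diagonal cubic surfaces
and the spectra of the cubic algebras `a x³ + b y³ = 0` with coefficients composed of primes of `M`.

**Result.** For a set of `D` whose proportion tends exactly to `c₃ ^ {3 ^ #M}`, `c₃ = ∏ (1 - 3^{-i}) > 0.56`,
for all these `X_a` and all these `Y`: *in every odd degree `i`* the function `L(H^i(X_a × Y), s)` is
continued to the whole plane and not zero at its centre `s = (i + 1) / 2`, and the elliptic curves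
`E_δ : y² + δ y = x³`, `δ = ∏ a_i ∏_{i ∈ T} a_i`, `#T = c`, whose product is isogenous to the intermediate
Jacobian of `X_a`, have only finitely many points over `F`.

Meaning for Beilinson's conjecture.  If `Y` is smooth projective and its Chow motive over `F` is a sum of
Tate motives (as for the projective spaces and for the surfaces above, which are rational with all their
lines defined over `F`), then `CH^m((X_a × Y)_F)_0 ⊗ ℚ` is a sum of groups `CH^{j}(X_a, F)_0 ⊗ ℚ`,
and these are `0` or `J(F) ⊗ ℚ` with `J ~ ∏_T E_{δ_T}` (Bloch–Murre, Collino, Paranjape; not formalized).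
So `V^m = 0` for `X = X_a × Y` and all `m`: the parts (i), (ii) and (iii) hold in all the odd degrees.

The degree of `L(H^i(X_a × Y), s)` is not bounded, and the Artin representations `ρ_k` are arbitrary: the
`L`-functions are products of the `L`-functions of the twists of `E_δ` by representations of `Gal(F/ℚ)`.
The Euler factors at the finitely many primes dividing `B` are left out; this does not change the order at
the centre.

The non-vanishing for the cubic twists, the finiteness over `F`, the law of the twists and the local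
identity for Artin twists are in the starting files `Pool/Agent/Y703`, `R432/JG`, `N842/EB`, `N883/DQ`;
the tensor product formalism, the eigenvalues and the splitting of the diagonal cubic surfaces over `F`
are in `Pool/Agent/V5helper41/BA`.
-/

set_option autoImplicit false

namespace Pool.Agent.Results.MP_29b22a_nt.ArtinTateProducts

open scoped Classical LinearAlgebra.Projectivization
open NumberField IsDedekindDomain

/-- A projective variety over `ℚ`: finitely many homogeneous equations with integer coefficients in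
the projective space of dimension `N`. -/
structure Variety where
  /-- the dimension of the projective space -/
  N : ℕ
  /-- the equations -/
  eqs : Finset (MvPolynomial (Fin (N + 1)) ℤ)
  /-- they are homogeneous -/
  hom : ∀ f ∈ eqs, ∃ d, f.IsHomogeneous d

/-- The points of `Y` with coordinates in the field `L`. -/
def Variety.points (Y : Variety) (L : Type) [Field L] : Set (ℙ L (Fin (Y.N + 1) → L)) :=
  {P | ∀ f ∈ Y.eqs, MvPolynomial.aeval P.rep f = 0}

/-- The projective space of dimension `N`. -/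
def space (N : ℕ) : Variety := ⟨N, ∅, fun _ h => absurd h (Finset.notMem_empty _)⟩

/-- The diagonal cubic `∑ a i x i ^ 3 = 0` in the projective space of dimension `N`. -/
noncomputable def diagonal {N : ℕ} (a : Fin (N + 1) → ℤ) : Variety :=
  ⟨N, {∑ i, MvPolynomial.C (a i) * MvPolynomial.X i ^ 3}, fun f hf => ⟨3, by
    rw [Finset.mem_singleton] at hf
    subst hf
    refine MvPolynomial.IsHomogeneous.sum _ _ _ fun i _ => ?_
    have h := (MvPolynomial.isHomogeneous_C (Fin (N + 1)) (a i)).mul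
      ((MvPolynomial.isHomogeneous_X ℤ i).pow 3)
    simpa using h⟩⟩

/-- The cohomology of `Y` is of Artin–Tate type and `Gal(F/ℚ)` acts on it, up to the Tate twists: there
are representations `ρ k` of `Gal(F/ℚ)` (on `H^{2k}(Y)(k)`) such that for all primes `p` not dividing
`B`, all places `w` of `F` above `p`, all arithmetic Frobenius elements `σ` at `w` and all fields `L` with
`p ^ n` elements the number of the points is `#Y(L) = ∑_k tr(ρ_k(σ⁻¹) ^ n) (p ^ n) ^ k`. -/
def IsArtinTate (Y : Variety) (F : Type) [Field F] [NumberField F] (B : ℕ) : Prop :=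
  ∃ (b : ℕ → ℕ) (ρ : ∀ k, (F ≃ₐ[ℚ] F) →* Matrix (Fin (b k)) (Fin (b k)) ℂ),
    ∀ (p : ℕ) (w : HeightOneSpectrum (𝓞 F)) (σ : F ≃ₐ[ℚ] F), p.Prime → ¬ p ∣ B →
      (p : 𝓞 F) ∈ w.asIdeal → IsArithFrobAt ℤ σ w.asIdeal →
      ∀ (L : Type) [Field L] [Finite L] (n : ℕ), Nat.card L = p ^ n →
        ((Y.points L).ncard : ℂ) =
          ∑ k ∈ Finset.range (Y.N + 1), (ρ k σ⁻¹ ^ n).trace * ((p : ℂ) ^ n) ^ k

/-- `A i`, `i = 0, 1, 2, …`, are the multisets of the eigenvalues of the Frobenius of the field with `p`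
elements on `H^i(X × Y)`: they have the absolute value `p ^ (i / 2)`, are empty for large `i`, and for
all fields `L` with `p ^ r` elements the product `X × Y` has `∑_i (-1)^i ∑_{α ∈ A i} α ^ r` points in
`L`.  These properties determine the `A i`. -/
def IsFrobenius (X Y : Variety) (p : ℕ) (A : ℕ → Multiset ℂ) : Prop :=
  (∀ i, ∀ α ∈ A i, ‖α‖ ^ 2 = (p : ℝ) ^ i) ∧ ∃ m, (∀ i, m < i → A i = 0) ∧
    ∀ (L : Type) [Field L] [Finite L] (r : ℕ), Nat.card L = p ^ r →
      ((X.points L ×ˢ Y.points L).ncard : ℂ) =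
        ∑ i ∈ Finset.range (m + 1), (-1) ^ i * ((A i).map fun α => α ^ r).sum

/-- In every odd degree `i` the function `L(H^i(X × Y), s)`, without the Euler factors at the primes
dividing `B`, is entire (it is the Euler product for `Re s > i / 2 + 1`) and not zero at the centre
`s = (i + 1) / 2`.  The number of the eigenvalues does not depend on `p`. -/
def NotZero (X Y : Variety) (B : ℕ) : Prop :=
  ∃ A : Nat.Primes → ℕ → Multiset ℂ,
    (∀ p : Nat.Primes, ¬ (p : ℕ) ∣ B → IsFrobenius X Y p (A p)) ∧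
    (∃ h : ℕ → ℕ, ∀ p : Nat.Primes, ¬ (p : ℕ) ∣ B → ∀ i, (A p i).card = h i) ∧
    ∀ i : ℕ, Odd i → ∃ L : ℂ → ℂ, Differentiable ℂ L ∧
      (∀ s : ℂ, (i : ℝ) / 2 + 1 < s.re →
        HasProd (fun p : Nat.Primes => if (p : ℕ) ∣ B then 1 else
          ((A p i).map fun α => (1 - α * ((p : ℕ) : ℂ) ^ (-s))⁻¹).prod) (L s)) ∧
      L ((i + 1) / 2) ≠ 0

/-- The curve `E_δ : y² + δ y = x³` over `K`. -/
def curve (K : Type) [Field K] (δ : ℤ) : WeierstrassCurve K := ⟨0, 0, (δ : K), 0, 0⟩

/-- `δ_T = ∏ a i ∏_{i ∈ T} a i`. -/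
def twist {m : ℕ} (a : Fin m → ℤ) (T : Finset (Fin m)) : ℤ := (∏ i, a i) * ∏ i ∈ T, a i

/-- `D` is squarefree, not divisible by `3`, not `±1` modulo `9`, not divisible by the elements of `M`,
and divisible by exactly one prime that is `2` modulo `3`. -/
def InClass (M : Finset ℕ) (D : ℕ) : Prop :=
  Squarefree D ∧ ¬ 3 ∣ D ∧ D % 9 ≠ 1 ∧ D % 9 ≠ 8 ∧ (∀ l ∈ M, ¬ l ∣ D) ∧
    ∃ q : ℕ, q.Prime ∧ q % 3 = 2 ∧ q ∣ D ∧ ∀ p : ℕ, p.Prime → p ∣ D → p ≠ q → p % 3 = 1

/-- In every factorization of `N` in coprime factors `d₀ d₁ d₂` for which `d₁ d₂²`, `d₂ d₀²`,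
`d₀ d₁²` are cubes modulo the primes dividing `d₀`, `d₁`, `d₂` respectively, two factors are `1`. -/
def HasNoSplitting (N : ℕ) : Prop :=
  ∀ d : ZMod 3 → ℕ, ∏ c, d c = N → (∀ c c', c ≠ c' → Nat.Coprime (d c) (d c')) →
    (∀ (c : ZMod 3) (p : ℕ), p.Prime → p ∣ d c →
      ∃ x : ℤ, (p : ℤ) ∣ (d (c + 1) : ℤ) * (d (c + 2) : ℤ) ^ 2 - x ^ 3) →
    ∃ c, ∀ c', c' ≠ c → d c' = 1

/-- All the `3 ^ #M` numbers `D ∏_{l ∈ M} l ^ (t l)` with exponents `0`, `1`, `2` have no splitting. -/
def Good (M : Finset ℕ) (D : ℕ) : Prop :=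
  ∀ t : {l : ℕ // l ∈ M} → ZMod 3, HasNoSplitting (D * ∏ l : {l : ℕ // l ∈ M}, l.1 ^ (t l).val)

/-- One `a i` is `± D` or `± D²`, and the others are not zero and only divisible by primes of `M`. -/
def IsForm (M : Finset ℕ) (D : ℕ) {m : ℕ} (a : Fin m → ℤ) : Prop :=
  ∃ j, ((a j).natAbs = D ∨ (a j).natAbs = D ^ 2) ∧
    ∀ i, i ≠ j → a i ≠ 0 ∧ ∀ p : ℕ, p.Prime → (p : ℤ) ∣ a i → p ∈ M

/-- `F = ℚ(ω, ∛l : l ∈ M)`, `ω² + ω + 1 = 0`. -/
def Generated (M : Finset ℕ) (F : Type) [Field F] : Prop :=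
  ∃ (ω : F) (r : ℕ → F), ω ^ 2 + ω + 1 = 0 ∧ (∀ l ∈ M, r l ^ 3 = (l : F)) ∧
    ∀ K : Subfield F, ω ∈ K → (∀ l ∈ M, r l ∈ K) → K = ⊤

open Pool.Agent.R432.JG (Cl cl_iff)
open Pool.Agent.V5helper41.BA

lemma points_diagonal {N : ℕ} (a : Fin (N + 1) → ℤ) (L : Type) [Field L] :
    (diagonal a).points L = PC a L := by
  ext P
  unfold Variety.points diagonal PC
  simp

lemma ncard_space (N : ℕ) (L : Type) [Field L] [Finite L] :
    ((space N).points L).ncard = ∑ i ∈ Finset.range (N + 1), Nat.card L ^ i := by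
  have h1 : (space N).points L = Set.univ := by
    ext P
    unfold Variety.points space
    simp
  rw [h1, Set.ncard_univ]
  exact Projectivization.card_of_finrank L (Fin (N + 1) → L) (by simp)

lemma space_at (N : ℕ) (F : Type) [Field F] [NumberField F] (B : ℕ) :
    IsArtinTate (space N) F B := by
  refine ⟨fun _ => 1, fun _ => 1, fun p w σ hp _ _ _ L _ _ n hL => ?_⟩
  rw [ncard_space, hL]
  push_cast
  refine Finset.sum_congr rfl fun k _ => ?_
  simp

/-- **Main theorem.**  `c₃ = ∏_{i ≥ 1} (1 - 3^{-i}) > 0.56`.  For every finite set `M` of primes `≡ 1`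
modulo `9`: the number of the `D ≤ X` in the class is at least `c' X / √(log X)`; the proportion of the
good `D` tends to `c₃ ^ (3 ^ #M)`; every good `D` of the class is good for `M ∪ {l}` for infinitely
many primes `l ≡ 1` modulo `9`; the field `F = ℚ(ω, ∛l : l ∈ M)` exists and has the degree
`2 * 3 ^ #M`.  For every good `D` of the class, every diagonal cubic `X_a` of the dimension `2 c + 1 ≤ 5`
that belongs to `(M, D)`: the groups `E_δ(F)`, `δ = δ_T`, `#T = c`, are finite, and `NotZero X_a Y B` for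
*every* projective variety `Y` of Artin–Tate type split by `F` (with the exceptional primes dividing `B`,
`B ≠ 0` a multiple of `3 D ∏_{l ∈ M} l`).  The projective spaces, and the diagonal cubic surfaces and the
cubic algebras with coefficients composed of primes of `M`, are such varieties `Y`. -/
theorem result :
    (0.56 : ℝ) < ∏' i : ℕ, (1 - (1 / 3 : ℝ) ^ (i + 1)) ∧
    ∀ M : Finset ℕ, (∀ l ∈ M, l.Prime ∧ l % 9 = 1) →
      (∃ c' : ℝ, 0 < c' ∧ ∃ X₀ : ℕ, ∀ X : ℕ, X₀ ≤ X →
        c' * X / Real.sqrt (Real.log X) ≤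
          (((Finset.Icc 1 X).filter fun D => InClass M D).card : ℝ)) ∧
      Filter.Tendsto (fun X : ℕ =>
        (((Finset.Icc 1 X).filter fun D => InClass M D ∧ Good M D).card : ℝ) /
          (((Finset.Icc 1 X).filter fun D => InClass M D).card : ℝ)) Filter.atTop
        (nhds ((∏' i : ℕ, (1 - (1 / 3 : ℝ) ^ (i + 1))) ^ (3 ^ M.card))) ∧
      (∀ D : ℕ, InClass M D → Good M D →
        {l : ℕ | l.Prime ∧ l % 9 = 1 ∧ ¬ l ∣ D ∧ l ∉ M ∧ Good (insert l M) D}.Infinite) ∧
      (∃ (F : Type) (_ : Field F) (_ : NumberField F), Generated M F) ∧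
      ∀ (F : Type) [Field F] [NumberField F], Generated M F →
        Module.finrank ℚ F = 2 * 3 ^ M.card ∧
        (∀ N B : ℕ, IsArtinTate (space N) F B) ∧
        (∀ a : Fin (1 + 1) → ℤ, (∀ i, a i ≠ 0 ∧ ∀ p : ℕ, p.Prime → (p : ℤ) ∣ a i → p ∈ M) →
          IsArtinTate (diagonal a) F (3 * ∏ l ∈ M, l)) ∧
        (∀ a : Fin (3 + 1) → ℤ, (∀ i, a i ≠ 0 ∧ ∀ p : ℕ, p.Prime → (p : ℤ) ∣ a i → p ∈ M) →
          IsArtinTate (diagonal a) F (3 * ∏ l ∈ M, l)) ∧
        ∀ D : ℕ, InClass M D → Good M D → ∀ c : ℕ, c ≤ 2 →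
          ∀ a : Fin (2 * c + 3) → ℤ, IsForm M D a →
            (∀ T : Finset (Fin (2 * c + 3)), T.card = c →
              Finite (curve F (twist a T)).toAffine.Point) ∧
            ∀ (Y : Variety) (B : ℕ), B ≠ 0 → 3 * D * ∏ l ∈ M, l ∣ B → IsArtinTate Y F B →
              NotZero (diagonal a) Y B := by
  refine ⟨Pool.Agent.R432.JG.c3_gt, fun M hM => ?_⟩
  have e1 : ∀ X : ℕ, (Finset.Icc 1 X).filter (fun D => InClass M D) =
      (Finset.Icc 1 X).filter fun D => Cl M D := fun X =>
    Finset.filter_congr fun D _ => (cl_iff M D).symm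
  have e2 : ∀ X : ℕ, (Finset.Icc 1 X).filter (fun D => InClass M D ∧ Good M D) =
      (Finset.Icc 1 X).filter fun D => Cl M D ∧
        Pool.Agent.R432.JG.AG M Finset.univ D := fun X =>
    Finset.filter_congr fun D _ => by
      rw [show InClass M D ↔ Cl M D from (cl_iff M D).symm]
      refine and_congr_right fun hC => ?_
      unfold Good Pool.Agent.R432.JG.AG
      exact ⟨fun h t _ => h t, fun h t => h t (Finset.mem_univ t)⟩
  have hcard : (Finset.univ : Finset ({l : ℕ // l ∈ M} → ZMod 3)).card = 3 ^ M.card := by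
    rw [Finset.card_univ, Fintype.card_fun, ZMod.card, Fintype.card_coe]
  refine ⟨?_, ?_, fun D hD hN => ?_, ?_, fun F _ _ hF => ?_⟩
  · simp only [e1]
    exact Pool.Agent.R432.JG.low hM
  · simp only [e1, e2]
    have h := Pool.Agent.R432.JG.law_all hM Finset.univ
    rw [hcard] at h
    exact h
  · have hC : Cl M D := (cl_iff M D).2 hD
    exact Pool.Agent.N883.DQ.more hM hC hN
  · obtain ⟨F, h1, h2, z, r, hz, hr, hgen⟩ := Pool.Agent.R432.JG.exists_genK M
    exact ⟨F, h1, h2, z, r, hz, hr, hgen⟩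
  · obtain ⟨z, r, hz, hr, hgen⟩ := hF
    have C := Pool.Agent.N842.EB.ctx hM hz hr hgen
    have hsplit : ∀ c : ℕ, (c = 1 ∨ c = 2) → ∀ a : Fin (2 * c) → ℤ,
        (∀ i, a i ≠ 0 ∧ ∀ p : ℕ, p.Prime → (p : ℤ) ∣ a i → p ∈ M) →
        ∃ (b : ℕ → ℕ) (ρ : ∀ k, (F ≃ₐ[ℚ] F) →* Matrix (Fin (b k)) (Fin (b k)) ℂ),
          ∀ (p : ℕ) (w : HeightOneSpectrum (𝓞 F)) (σ : F ≃ₐ[ℚ] F), p.Prime →
            ¬ p ∣ 3 * ∏ l ∈ M, l →
            (p : 𝓞 F) ∈ w.asIdeal → IsArithFrobAt ℤ σ w.asIdeal →
            ∀ (L : Type) [Field L] [Finite L] (n : ℕ), Nat.card L = p ^ n →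
              ((PC a L).ncard : ℂ) =
                ∑ k ∈ Finset.range (2 * c), (ρ k σ⁻¹ ^ n).trace * ((p : ℂ) ^ n) ^ k := by
      intro c hc a ha
      obtain ⟨b, ρ, h⟩ := split_even C hc (fun i => (ha i).1) (fun i => (ha i).2)
      refine ⟨b, ρ, fun p w σ hp hpB hw hσ => h p w σ hp ?_ ?_ hw (frb_pow hp hw hσ)⟩
      · rintro rfl
        exact hpB (dvd_mul_right _ _)
      · intro hpM
        exact hpB (Dvd.dvd.mul_left (Finset.dvd_prod_of_mem (fun l : ℕ => l) hpM) _)
    refine ⟨Pool.Agent.N842.EB.degree hM hz hr hgen, fun N B => space_at N F B, fun a ha => ?_,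
      fun a ha => ?_, fun D hD hN c hc a ha => ?_⟩
    · obtain ⟨b, ρ, h⟩ := hsplit 1 (Or.inl rfl) a ha
      refine ⟨b, ρ, fun p w σ hp hpB hw hσ L _ _ n hL => ?_⟩
      rw [points_diagonal]
      exact h p w σ hp hpB hw hσ L n hL
    · obtain ⟨b, ρ, h⟩ := hsplit 2 (Or.inr rfl) a ha
      refine ⟨b, ρ, fun p w σ hp hpB hw hσ L _ _ n hL => ?_⟩
      rw [points_diagonal]
      exact h p w σ hp hpB hw hσ L n hL
    · have hC : Cl M D := (cl_iff M D).2 hD
      refine ⟨fun T _ => fin_E C hM hC hN ha T, fun Y B hB hBd hY => ?_⟩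
      obtain ⟨b, ρ, hρ⟩ := hY
      choose v σ hv hσ hσ' using fun p : Nat.Primes => exists_frb (F := F) C.gal p.2
      have hβ' : ∀ p : Nat.Primes, ∃ β : ZMod p → ℂ, ¬ (p : ℕ) ∣ B →
          (haveI := Fact.mk p.2; Pool.Agent.N883.DQ.IsBeta β) := by
        intro p
        haveI := Fact.mk p.2
        by_cases hp : (p : ℕ) ∣ B
        · exact ⟨0, fun h => absurd hp h⟩
        · obtain ⟨β, hβ⟩ := exists_b (p := p) (by
            intro h3
            apply hp
            rw [h3]
            exact dvd_trans (Dvd.dvd.mul_right (dvd_mul_right 3 D) _) hBd)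
          exact ⟨β, fun _ => hβ⟩
      choose β hβ using hβ'
      have hE : ∀ p : Nat.Primes, ¬ (p : ℕ) ∣ B →
          ∀ γ ∈ Pool.Agent.N883.DQ.eigs c a p fun δ => β p ((δ : ℤ) : ZMod p),
            ‖γ‖ ^ 2 = ((p : ℕ) : ℝ) ^ (2 * c + 1) := by
        intro p hp γ hγ
        haveI := Fact.mk p.2
        obtain ⟨T, hT⟩ := Pool.Agent.N883.DQ.eigs_mem hγ
        have hD' : ¬ ((p : ℕ) : ℤ) ∣ Pool.Agent.N883.DQ.Dt a T := by
          have hpp : Prime ((p : ℕ) : ℤ) := Nat.prime_iff_prime_int.1 p.2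
          intro h
          unfold Pool.Agent.N883.DQ.Dt at h
          rcases hpp.dvd_or_dvd h with h | h
          · obtain ⟨i, -, hi⟩ := (hpp.dvd_finsetProd_iff _).1 h
            exact fam_ndvd hBd ha p.2 hp i hi
          · obtain ⟨i, -, hi⟩ := (hpp.dvd_finsetProd_iff _).1 h
            exact fam_ndvd hBd ha p.2 hp i hi
        have h2 := beta_mul (hβ p hp) hD'
        rcases hT with rfl | rfl
        · exact Pool.Agent.N883.DQ.sq_of h2 c
        · refine Pool.Agent.N883.DQ.sq_of ?_ c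
          rw [Complex.conj_conj, mul_comm]
          exact h2
      refine ⟨fun p i => Aw (2 * c + 1) Y.N ((p : ℕ) : ℂ)
        (Pool.Agent.N883.DQ.eigs c a p fun δ => β p ((δ : ℤ) : ZMod p))
        (fun k => ev (ρ k (σ p)⁻¹)) i, fun p hp => ⟨fun i α hα => ?_, ?_⟩, ?_, fun i hi => ?_⟩
      · exact Aw_weight (hE p hp) (fun k x hx => norm_rho (ρ k) _ hx) i hα
      · refine ⟨2 * (2 * c + 1 + Y.N), fun i hi => Aw_top le_rfl _ _ _ hi, fun L _ _ n hL => ?_⟩
        haveI := Fact.mk p.2
        have h5 : ((((diagonal a).points L ×ˢ Y.points L).ncard : ℕ) : ℂ) =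
            ((PC (m := 2 * c + 3) a L).ncard : ℂ) * ((Y.points L).ncard : ℂ) := by
          rw [Set.ncard_prod, Nat.cast_mul, points_diagonal]
          rfl
        rw [h5, count_odd (hβ p hp) hc (fun i => fam_ndvd hBd ha p.2 hp i) L n hL,
          hρ p (v p) (σ p) p.2 hp (hv p) (hσ p) L n hL]
        refine Eq.trans ?_ (Aw_count (n := 2 * c + 1) (N := Y.N) ⟨c, rfl⟩ le_rfl _ _ _ _).symm
        congr 1
        refine Finset.sum_congr rfl fun k _ => ?_
        rw [trace_ev]
      · refine ⟨fun i => (∑ k ∈ Finset.range (Y.N + 1), if 2 * c + 1 + 2 * k = i then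
            (2 * (2 * c + 3).choose c) * b k else 0) +
          ∑ j ∈ Finset.range (2 * c + 1 + 1), ∑ k ∈ Finset.range (Y.N + 1),
            if 2 * (j + k) = i then b k else 0, fun p hp i => (Aw_card _ _ _ _ _ _).trans ?_⟩
        simp only [card_ev, Pool.Agent.N883.DQ.eigs_card, Fintype.card_fin]
      · exact main_L C hM hC hN hB hBd ha Y.N ρ hv hσ' hβ hi

end Pool.Agent.Results.MP_29b22a_nt.ArtinTateProducts
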