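import Pool.Agent.V5helper50.BQ.Art
import Pool.Agent.Results.MP_03e5d0_nt.FullClassX49

/-!
# Beilinson's conjecture on ranks, in all the odd degrees, for products of a twist of `X_0(49)` with a
# variety of Artin–Tate type split by a real multiquadratic field

A number is *admissible* (`Family`) if it is squarefree and all its prime factors are `≡ 1 mod 4`.  `E_D`
is the quadratic twist by the admissible number `D` of `X_0(49) : y² + x y = x³ - x² - 2 x - 1`.  Let `S`
be a finite set of admissible numbers and `F = ℚ(√m : m ∈ S)`, any real multiquadratic field of this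
kind.  Let `Y` be *any* projective variety over `ℚ` whose cohomology is of Artin–Tate type and becomes a
sum of Tate twists over `F`; precisely (`IsArtinTate`): there are complex representations `ρ_k` of
`Gal(F/ℚ)` with `#Y(L) = ∑_k tr(ρ_k(Frob_p^{-1})^r) (p^r)^k` for the fields `L` with `p^r` elements, `p`
prime to `B`.  Examples (proved below): the projective spaces, all the diagonal quadrics
`∑ a_i x_i² = 0` of odd dimension, and those of even dimension `2 k` (`2 k + 2` variables) for which
`(-1)^(k+1) ∏ a_i` is a square in `F` (their two families of `k`-dimensional linear subspaces are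
defined over `F`).

**Result.**  `D` is good for `F` if the `[F : ℚ]` curves `E_{tw m D}`, `m` admissible with `√m ∈ F`, have
finitely many rational points and no element of order two in `Ш` over `ℚ`.  For all `D` good for `F` and
all these `Y`: *in every odd degree `i`* the function `L(H^i(E_D × Y), s)` is continued to the whole plane
and is not zero at its centre `s = (i + 1) / 2`, and `E_D(F)` is finite.  Exactly the proportion
`c ^ [F : ℚ]` of the admissible `D`, `c = ∏_{i ≥ 0} (1 - 2^{-(2i+1)}) = 0.4194...`, is good for `F`; if `M` is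
good for `F` then it is good for `F(√D)`, again, for exactly the proportion `c ^ [F : ℚ]` of the `D`, and
there are at least `a X / √(log X)` of them up to `X`; `1` is good for `ℚ`.

Meaning for Beilinson's conjecture.  If `Y` is smooth projective and its Chow motive over `F` is a sum of
Tate motives with rational coefficients (as for the projective spaces and these quadrics), then
`CH^m((E_D × Y)_F)_0 ⊗ ℚ` is a sum of groups `E_D(F) ⊗ ℚ` (not formalized), which are zero.  So
`V^m = 0` for `X = E_D × Y` and all `m`: the parts (i), (ii) and (iii) hold in all the odd degrees, for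
varieties of arbitrary dimension, and the degree of `L(H^i(E_D × Y), s)` is not bounded.  The Euler
factors at the finitely many primes dividing `B` are left out; this does not change the order at the
centre.

The corresponding theorem for diagonal cubics and the fields `ℚ(ω, ∛l, …)` is helper41's `ArtinTateProducts`;
the tensor product formalism (`V5helper41/BA/Mul`, `Lin`) and the definitions are his.  The non-vanishing,
the Selmer groups and the law over `ℚ` are in the starting files (`MP_4a9ea6_nt/TwoPartTwistsX49`,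
`MP_03e5d0_nt/FullClassX49`); the multiquadratic fields are in `V5helper50/MQ`, the characters of
`Gal(F/ℚ)`, the eigenvalues of the Frobenius and the quadrics in `V5helper50/BQ`.
-/

set_option autoImplicit false

open scoped LinearAlgebra.Projectivization
open NumberField IsDedekindDomain WeierstrassCurve Filter Topology

namespace Pool.Agent.Results.MP_29b22a_nt.QuadricProducts

open Pool.Agent.Results.MP_4a9ea6_nt.TwoPartTwistsX49 (twist)
open Pool.Agent.Results.MP_92892c_nt.FullClassTwoPartX49 (Family RankZeroShaTwo num)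
open Pool.Agent.Results.MP_03e5d0_nt.FullClassX49 (tw c)

/-- A projective variety over `ℚ`: finitely many homogeneous equations with integer coefficients in
the projective space of dimension `N`. -/
structure Variety where
  /-- the dimension of the projective space -/
  N : ℕ
  /-- the equations -/
  eqs : Finset (MvPolynomial (Fin (N + 1)) ℤ)
  /-- they are homogeneous -/
  hom : ∀ f ∈ eqs, ∃ d, f.IsHomogeneous d

/-- The points of `Y` with coordinates in the field `L`. -/
def Variety.points (Y : Variety) (L : Type) [Field L] : Set (ℙ L (Fin (Y.N + 1) → L)) :=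
  {P | ∀ f ∈ Y.eqs, MvPolynomial.aeval P.rep f = 0}

/-- The projective space of dimension `N`. -/
def space (N : ℕ) : Variety := ⟨N, ∅, fun _ h => absurd h (Finset.notMem_empty _)⟩

/-- The diagonal quadric `∑ a i x i ^ 2 = 0` in the projective space of dimension `N`. -/
noncomputable def quadric {N : ℕ} (a : Fin (N + 1) → ℤ) : Variety :=
  ⟨N, {∑ i, MvPolynomial.C (a i) * MvPolynomial.X i ^ 2}, fun f hf => ⟨2, by
    rw [Finset.mem_singleton] at hf
    subst hf
    refine MvPolynomial.IsHomogeneous.sum _ _ _ fun i _ => ?_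
    have h := (MvPolynomial.isHomogeneous_C (Fin (N + 1)) (a i)).mul
      ((MvPolynomial.isHomogeneous_X ℤ i).pow 2)
    simpa using h⟩⟩

/-- The cohomology of `Y` is of Artin–Tate type and `Gal(F/ℚ)` acts on it, up to the Tate twists: there
are representations `ρ k` of `Gal(F/ℚ)` (on `H^{2k}(Y)(k)`) such that for all primes `p` not dividing
`B`, all places `w` of `F` above `p`, all arithmetic Frobenius elements `σ` at `w` and all fields `L` with
`p ^ n` elements the number of the points is `#Y(L) = ∑_k tr(ρ_k(σ⁻¹) ^ n) (p ^ n) ^ k`. -/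
def IsArtinTate (Y : Variety) (F : Type) [Field F] [NumberField F] (B : ℕ) : Prop :=
  ∃ (b : ℕ → ℕ) (ρ : ∀ k, (F ≃ₐ[ℚ] F) →* Matrix (Fin (b k)) (Fin (b k)) ℂ),
    ∀ (p : ℕ) (w : HeightOneSpectrum (𝓞 F)) (σ : F ≃ₐ[ℚ] F), p.Prime → ¬ p ∣ B →
      (p : 𝓞 F) ∈ w.asIdeal → IsArithFrobAt ℤ σ w.asIdeal →
      ∀ (L : Type) [Field L] [Finite L] (n : ℕ), Nat.card L = p ^ n →
        ((Y.points L).ncard : ℂ) =
          ∑ k ∈ Finset.range (Y.N + 1), (ρ k σ⁻¹ ^ n).trace * ((p : ℂ) ^ n) ^ k

/-- The curve `E_D` over the field `K`. -/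
abbrev curve (D : ℕ) (K : Type) [Field K] : WeierstrassCurve K := (twist D).map (Int.castRingHom K)

/-- `A i`, `i = 0, 1, 2, …`, are the multisets of the eigenvalues of the Frobenius of the field with `p`
elements on `H^i(E_D × Y)`: they have the absolute value `p ^ (i / 2)`, are empty for large `i`, and for
all fields `L` with `p ^ r` elements the product `E_D × Y` has `∑_i (-1)^i ∑_{α ∈ A i} α ^ r` points in
`L`.  These properties determine the `A i`. -/
def IsFrobenius (D : ℕ) (Y : Variety) (p : ℕ) (A : ℕ → Multiset ℂ) : Prop :=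
  (∀ i, ∀ α ∈ A i, ‖α‖ ^ 2 = (p : ℝ) ^ i) ∧ ∃ m, (∀ i, m < i → A i = 0) ∧
    ∀ (L : Type) [Field L] [Finite L] (r : ℕ), Nat.card L = p ^ r →
      ((Nat.card (curve D L).toAffine.Point * (Y.points L).ncard : ℕ) : ℂ) =
        ∑ i ∈ Finset.range (m + 1), (-1) ^ i * ((A i).map fun α => α ^ r).sum

/-- In every odd degree `i` the function `L(H^i(E_D × Y), s)`, without the Euler factors at the primes
dividing `B`, is entire (it is the Euler product for `Re s > i / 2 + 1`) and not zero at the centre
`s = (i + 1) / 2`.  The number of the eigenvalues does not depend on `p`. -/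
def NotZero (D : ℕ) (Y : Variety) (B : ℕ) : Prop :=
  ∃ A : Nat.Primes → ℕ → Multiset ℂ,
    (∀ p : Nat.Primes, ¬ (p : ℕ) ∣ B → IsFrobenius D Y p (A p)) ∧
    (∃ h : ℕ → ℕ, ∀ p : Nat.Primes, ¬ (p : ℕ) ∣ B → ∀ i, (A p i).card = h i) ∧
    ∀ i : ℕ, Odd i → ∃ L : ℂ → ℂ, Differentiable ℂ L ∧
      (∀ s : ℂ, (i : ℝ) / 2 + 1 < s.re →
        HasProd (fun p : Nat.Primes => if (p : ℕ) ∣ B then 1 else
          ((A p i).map fun α => (1 - α * ((p : ℕ) : ℂ) ^ (-s))⁻¹).prod) (L s)) ∧
      L ((i + 1) / 2) ≠ 0

/-- The field generated by the square roots of the elements of `S`. -/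
noncomputable def multiquadratic (S : Finset ℕ) : IntermediateField ℚ ℂ :=
  IntermediateField.adjoin ℚ {z : ℂ | ∃ m ∈ S, z ^ 2 = (m : ℂ)}

/-- `F` contains a square root of the integer `m`. -/
def HasSqrt (F : IntermediateField ℚ ℂ) (m : ℤ) : Prop := ∃ z ∈ F, z ^ 2 = (m : ℂ)

instance (S : Finset ℕ) : NumberField (multiquadratic S) where
  to_charZero := inferInstance
  to_finiteDimensional := Pool.Agent.V5helper50.MQ.fin_mqn S

/-- `D` is good for `F = multiquadratic S`: the `E_{tw m D}`, for all the admissible `m` with `√m ∈ F`,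
have finitely many rational points and no element of order two in `Ш` over `ℚ`. -/
def Good (S : Finset ℕ) (D : ℕ) : Prop :=
  ∀ m : ℕ, Family m → HasSqrt (multiquadratic S) m → RankZeroShaTwo (tw m D)

section proof

open Pool.Agent.V5helper50.MQ Pool.Agent.V5helper50.BQ
open Pool.Agent.V5helper41.BA (ev card_ev trace_ev Aw Aw_count Aw_weight Aw_card Aw_top)
open Pool.Agent.Y698 (AX bc)
open Pool.Agent.R413.SQ (Joint.tw Joint.num Joint.low_of)
open Pool.Agent.Results.MP_4a9ea6_nt.TwoPartTwistsX49 (Adm mat core E E_eq)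
open Pool.Agent.Results.MP_03e5d0_nt.FullClassX49 (sel_det num_num)

lemma points_quadric {N : ℕ} (a : Fin (N + 1) → ℤ) (L : Type) [Field L] :
    (quadric a).points L = PQ a L := by
  ext P
  unfold Variety.points quadric PQ
  simp

lemma ncard_space (N : ℕ) (L : Type) [Field L] [Finite L] :
    ((space N).points L).ncard = ∑ i ∈ Finset.range (N + 1), Nat.card L ^ i := by
  have h1 : (space N).points L = Set.univ := by
    ext P
    unfold Variety.points space
    simp
  rw [h1, Set.ncard_univ]
  exact Projectivization.card_of_finrank L (Fin (N + 1) → L) (by simp)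

lemma space_at (N : ℕ) (F : Type) [Field F] [NumberField F] (B : ℕ) :
    IsArtinTate (space N) F B := by
  refine ⟨fun _ => 1, fun _ => 1, fun p w σ hp _ _ _ L _ _ n hL => ?_⟩
  rw [ncard_space, hL]
  push_cast
  refine Finset.sum_congr rfl fun k _ => ?_
  simp

lemma quadric_at (F : Type) [Field F] [NumberField F] {N : ℕ} (a : Fin (N + 1) → ℤ)
    (ha : ∀ i, a i ≠ 0)
    (hd : ∀ k, N + 1 = 2 * (k + 1) → ∃ z : F, z ^ 2 = (((-1) ^ (k + 1) * ∏ i, a i : ℤ) : F)) :
    IsArtinTate (quadric a) F (2 * ∏ i, (a i).natAbs) := by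
  obtain ⟨b, ρ, h⟩ := split_quad a ha hd
  refine ⟨b, ρ, fun p w σ hp hpB hw hσ L _ _ n hL => ?_⟩
  rw [points_quadric]
  exact h p w σ hp hpB hw hσ L n hL

variable {S : Finset ℕ} (hS : ∀ m ∈ S, Family m)

lemma hasSqrt_iff (F : IntermediateField ℚ ℂ) (m : ℕ) : HasSqrt F m ↔ Sq F m := by
  unfold HasSqrt Sq
  simp

theorem good_iff {D : ℕ} (hD : Family D) : Good S D ↔ Gf (multiquadratic S) D := by
  have hD' : Cl D := hD
  constructor
  · intro h m hm hsq
    exact (sel_det (show Adm (Joint.tw m D) from cl_tw hm hD')).1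
      (h m hm ((hasSqrt_iff _ _).2 hsq))
  · intro hG m hm hsq
    exact (sel_det (show Adm (Joint.tw m D) from cl_tw hm hD')).2
      (hG m hm ((hasSqrt_iff _ _).1 hsq))

include hS

theorem det_of {D : ℕ} (hD : Family D) (hG : Gf (multiquadratic S) D) :
    ∀ T ∈ XF (multiquadratic S) (S0 S), (mat (twn T D)).det ≠ 0 := by
  intro T hT
  have hS' : ∀ m ∈ S, Cl m := hS
  have hD' : Cl D := hD
  obtain ⟨h1, h2⟩ := mem_XF.1 hT
  have h3 := ((ps_S0 hS').mono h1).cl
  have h4 := hG _ h3.1 h2
  rwa [tw_twn h3.1 hD', h3.2] at h4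

theorem fin_F {D : ℕ} (hD : Family D) (hG : Gf (multiquadratic S) D) :
    Finite (curve D (multiquadratic S)).toAffine.Point := by
  classical
  have hS' : ∀ m ∈ S, Cl m := hS
  have hD' : Cl D := hD
  set F := multiquadratic S with hF
  have hm4 : D % 4 = 1 := by
    have := (hD'.ps).mod
    rwa [hD'.prod] at this
  obtain ⟨j, hj⟩ : ∃ j, D = 1 + 4 * j := ⟨D / 4, by omega⟩
  have h2 : curve D F = AX F j := Pool.Agent.Y698.twZ_map hj F
  have h3 : R7 F D = 0 := by
    refine rank0_F hS' F rfl hD' fun T hTX => ?_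
    obtain ⟨h1, h2⟩ := mem_XF.1 hTX
    have h3 := ((ps_S0 hS').mono h1).cl
    have h4 := hG _ h3.1 h2
    rw [tw_twn h3.1 hD', h3.2] at h4
    have hTc : Cl (twn T D) := (cl_twn ((ps_S0 hS').mono h1) hD').1
    have h5 : twn T D = 1 + 4 * (twn T D / 4) := by
      have h5 := hTc.ps.mod
      rw [hTc.prod] at h5
      omega
    rw [← fin_iff ℚ h5, ← E_eq h5]
    obtain ⟨-, -, -, h6, -⟩ := core (show Adm (twn T D) from hTc)
    exact (h6.2 h4).1
  rw [h2]
  exact (fin_iff F hj).2 h3

/-- **The products.** -/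
theorem notZero {D : ℕ} (hD : Family D) (hG : Gf (multiquadratic S) D) (Y : Variety) {B : ℕ}
    (hB : B ≠ 0) (hBd : 14 * D * ∏ m ∈ S, m ∣ B) (hY : IsArtinTate Y (multiquadratic S) B) :
    NotZero D Y B := by
  classical
  have hS' : ∀ m ∈ S, Cl m := hS
  have hD' : Cl D := hD
  obtain ⟨b, ρ, hρ⟩ := hY
  have hgal : IsGalois ℚ (multiquadratic S) := isGal hS' (multiquadratic S) rfl
  choose v σ hv hσ hσ' using fun p : Nat.Primes => exists_frb (F := multiquadratic S) hgal p.2
  have hp7 : ∀ p : Nat.Primes, ¬ (p : ℕ) ∣ B → (p : ℕ) ≠ 7 := by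
    intro p hp h
    apply hp
    rw [h]
    exact dvd_trans (Dvd.dvd.mul_right (Dvd.dvd.mul_right (by norm_num) D) _) hBd
  have hpD : ∀ p : Nat.Primes, ¬ (p : ℕ) ∣ B → ¬ (p : ℕ) ∣ D := fun p hp h => hp
    (dvd_trans (Dvd.dvd.mul_right (Dvd.dvd.mul_left h _) _) hBd)
  have hroots : ∀ p : Nat.Primes, ∃ γ γ' : ℂ, ¬ (p : ℕ) ∣ B → γ + γ' = sg D p * bc p ∧
      γ * γ' = ((p : ℕ) : ℂ) ∧ ‖γ‖ ^ 2 = ((p : ℕ) : ℝ) ∧ ‖γ'‖ ^ 2 = ((p : ℕ) : ℝ) := by
    intro p
    by_cases hp : (p : ℕ) ∣ B
    · exact ⟨0, 0, fun h => absurd hp h⟩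
    · obtain ⟨γ, γ', h⟩ := roots_D hD' p.2 (hp7 p hp) (hpD p hp)
      exact ⟨γ, γ', fun _ => h⟩
  choose γ γ' hγ using hroots
  refine ⟨fun p i => Aw 1 Y.N ((p : ℕ) : ℂ) {γ p, γ' p} (fun k => ev (ρ k (σ p)⁻¹)) i,
    fun p hp => ⟨fun i α hα => ?_, ?_⟩, ?_, fun i hi => ?_⟩
  · obtain ⟨h1, h2, h3, h4⟩ := hγ p hp
    refine Aw_weight (n := 1) ?_ (fun k x hx => norm_rho hS' (multiquadratic S) rfl (ρ k) _ hx) i hα
    intro x hx
    rw [pow_one]
    rcases Multiset.mem_cons.1 hx with rfl | hx
    · exact h3
    · rw [Multiset.mem_singleton] at hx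
      rw [hx]
      exact h4
  · obtain ⟨h1, h2, h3, h4⟩ := hγ p hp
    refine ⟨2 * (1 + Y.N), fun i hi => Aw_top le_rfl _ _ _ hi, fun L _ _ n hL => ?_⟩
    rw [Nat.cast_mul, count_E hD' p.2 (hp7 p hp) (hpD p hp) h1 h2 L n hL,
      hρ p (v p) (σ p) p.2 hp (hv p) (hσ p) L n hL]
    refine Eq.trans ?_ (Aw_count (n := 1) (N := Y.N) odd_one le_rfl _ _ _ _).symm
    congr 1
    · rw [Finset.sum_range_succ, Finset.sum_range_one, pow_zero, pow_one]
      simp
    · refine Finset.sum_congr rfl fun k _ => ?_
      rw [trace_ev]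
  · refine ⟨fun i => (∑ k ∈ Finset.range (Y.N + 1), if 1 + 2 * k = i then 2 * b k else 0) +
        ∑ j ∈ Finset.range (1 + 1), ∑ k ∈ Finset.range (Y.N + 1),
          if 2 * (j + k) = i then b k else 0, fun p hp i => (Aw_card _ _ _ _ _ _).trans ?_⟩
    simp only [card_ev, Fintype.card_fin, Multiset.insert_eq_cons, Multiset.card_cons,
      Multiset.card_singleton]
  · exact main_L hS' (multiquadratic S) rfl hD' (det_of hS hD hG) hB hBd Y.N ρ hv hσ'
      (fun p hp => (hγ p hp).1) (fun p hp => (hγ p hp).2.1) hi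

end proof

open Pool.Agent.V5helper50.MQ in
open Pool.Agent.R413.SQ (Joint.tw Joint.num Joint.low_of) in
open Pool.Agent.Results.MP_4a9ea6_nt.TwoPartTwistsX49 (Adm mat) in
open Pool.Agent.Results.MP_03e5d0_nt.FullClassX49 (sel_det num_num) in
/-- **Main theorem.**  Let `S` be a finite set of admissible numbers, `F = ℚ(√m : m ∈ S)` and
`c = ∏_{i ≥ 0} (1 - 2^{-(2i+1)})`.

* The projective spaces, and the diagonal quadrics with nonzero coefficients, for an even number
  `2 (k + 1)` of variables if `(-1)^(k+1) ∏ a_i` is a square in `F`, are of Artin–Tate type, split by `F`.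
* If the admissible number `D` is good for `F`, then `E_D(F)` is finite, and `NotZero D Y B` for *every*
  projective variety `Y` of Artin–Tate type split by `F` (`B ≠ 0` a multiple of `14 D ∏_{m ∈ S} m`).
* For every admissible `M` the proportion of the admissible `D` such that the squarefree part `tw M D` of
  `M D` is good for `F` is exactly `c ^ [F : ℚ]` (`M = 1`: `D` is good for `F`), and if `M` is good for `F`
  then this is the proportion of the `D` such that `M` is good for `F(√D)`; there are at least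
  `a X / √(log X)` such `D` up to `X`.
* `1` is good for `ℚ` (so that these steps can be iterated). -/
theorem result :
    (∀ S : Finset ℕ, (∀ m ∈ S, Family m) →
      (∀ N B : ℕ, IsArtinTate (space N) (multiquadratic S) B) ∧
      (∀ (N : ℕ) (a : Fin (N + 1) → ℤ), (∀ i, a i ≠ 0) →
        (∀ k, N + 1 = 2 * (k + 1) → HasSqrt (multiquadratic S) ((-1) ^ (k + 1) * ∏ i, a i)) →
        IsArtinTate (quadric a) (multiquadratic S) (2 * ∏ i, (a i).natAbs)) ∧
      (∀ D : ℕ, Family D → Good S D →
        Finite (curve D (multiquadratic S)).toAffine.Point ∧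
        ∀ (Y : Variety) (B : ℕ), B ≠ 0 → 14 * D * ∏ m ∈ S, m ∣ B →
          IsArtinTate Y (multiquadratic S) B → NotZero D Y B) ∧
      (∀ M : ℕ, Family M →
        Tendsto (fun X : ℕ => (num (fun D => Good S (tw M D)) X : ℝ) / (num (fun _ => True) X : ℝ))
          atTop (𝓝 (c ^ Module.finrank ℚ (multiquadratic S))) ∧
        (Good S M →
          Tendsto (fun X : ℕ => (num (fun D => Good (insert D S) M) X : ℝ) /
            (num (fun _ => True) X : ℝ)) atTop (𝓝 (c ^ Module.finrank ℚ (multiquadratic S))) ∧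
          ∃ (a : ℝ) (X₀ : ℕ), 0 < a ∧ ∀ X : ℕ, X₀ ≤ X →
            a * X / Real.sqrt (Real.log X) ≤ (num (fun D => Good (insert D S) M) X : ℝ)))) ∧
    Good ∅ 1 ∧ 0.4194 < c ∧ c < 0.4195 := by
  have hcc : Pool.Agent.Y703.CQ.c2 = c := rfl
  have hc1 : 0.4194 < c := Pool.Agent.Y948.CQ.t_C2.2.2.2.1
  have hc2 : c < 0.4195 := Pool.Agent.Y948.CQ.t_C2.2.2.2.2
  have hcpos : 0 < c := by linarith
  refine ⟨fun S hS => ⟨fun N B => space_at N _ B, fun N a ha hd => quadric_at _ a ha fun k hk => ?_,
    fun D hD hG => ?_, fun M hM => ?_⟩, ?_, hc1, hc2⟩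
  · obtain ⟨z, hz, hz2⟩ := hd k hk
    refine ⟨⟨z, hz⟩, Subtype.ext ?_⟩
    push_cast
    push_cast at hz2
    exact hz2
  · have hG' := (good_iff hD).1 hG
    exact ⟨fin_F hS hD hG', fun Y B hB hBd hY => notZero hS hD hG' Y hB hBd hY⟩
  · have hlaw : Tendsto (fun X : ℕ => (num (fun D => Good S (tw M D)) X : ℝ) /
        (num (fun _ => True) X : ℝ)) atTop (𝓝 (c ^ Module.finrank ℚ (multiquadratic S))) := by
      have h := Pool.Agent.V5helper50.MQ.law_F (S := S) hS (multiquadratic S) rfl (T := {M}) (V := {M})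
        (fun m hm => by rw [Finset.mem_singleton.1 hm]; exact hM) subset_rfl (by
          intro a ha b hb _
          rw [Finset.mem_singleton.1 ha, Finset.mem_singleton.1 hb])
      rw [hcc, Finset.sdiff_self, Finset.card_empty, pow_zero, mul_one, Finset.card_singleton,
        pow_one] at h
      refine h.congr fun X => ?_
      rw [num_num (Q := fun D => Good S (tw M D))
          (R := fun D => ∀ m ∈ ({M} : Finset ℕ),
            (Gf (multiquadratic S) (Joint.tw m D) ↔ m ∈ ({M} : Finset ℕ)))
          (fun D hD => ?_) X,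
        num_num (Q := fun _ => True) (R := fun _ => True) (fun _ _ => Iff.rfl) X]
      rw [show Good S (tw M D) ↔ Gf (multiquadratic S) (Joint.tw M D) from
        good_iff (cl_tw hM hD)]
      simp
    refine ⟨hlaw, fun hG => ?_⟩
    have hquad : ∀ D : ℕ, Family D → (Good (insert D S) M ↔ Good S M ∧ Good S (tw M D)) := by
      intro D hD
      have hS' : ∀ m ∈ insert D S, Family m := by
        intro k hk
        rcases Finset.mem_insert.1 hk with rfl | hk
        · exact hD
        · exact hS k hk
      obtain ⟨z, hz⟩ : ∃ z : ℂ, z ^ 2 = (D : ℂ) := IsAlgClosed.exists_pow_nat_eq _ (by norm_num)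
      have h1 := gf_quad hS (multiquadratic S) rfl hD (multiquadratic (insert D S)) hz
        (mqn_insert S D hz) hM
      rw [good_iff hM, good_iff hM, h1]
      exact and_congr_right fun _ => (good_iff (cl_tw hM hD)).symm
    have h1 : Tendsto (fun X : ℕ => (num (fun D => Good (insert D S) M) X : ℝ) /
        (num (fun _ => True) X : ℝ)) atTop (𝓝 (c ^ Module.finrank ℚ (multiquadratic S))) := by
      refine hlaw.congr fun X => ?_
      congr 2
      rw [num_num (Q := fun D => Good S (tw M D)) (R := fun D => Good (insert D S) M)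
          (fun D hD => ?_) X,
        num_num (Q := fun D => Good (insert D S) M) (R := fun D => Good (insert D S) M)
          (fun _ _ => Iff.rfl) X]
      rw [hquad D hD]
      exact ⟨fun h => ⟨hG, h⟩, fun h => h.2⟩
    refine ⟨h1, ?_⟩
    have h3 : 0 < c ^ Module.finrank ℚ (multiquadratic S) := by positivity
    have h4 : ∀ X : ℕ, (num (fun D => Good (insert D S) M) X : ℝ) =
        Joint.num (fun D => Good (insert D S) M) X := fun X => by
      rw [num_num (Q := fun D => Good (insert D S) M) (R := fun D => Good (insert D S) M)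
          (fun _ _ => Iff.rfl) X]
    have h5 : ∀ X : ℕ, (num (fun _ => True) X : ℝ) = Joint.num (fun _ => True) X := fun X => by
      rw [num_num (Q := fun _ => True) (R := fun _ => True) (fun _ _ => Iff.rfl) X]
    simp only [h4, h5] at h1 ⊢
    exact Joint.low_of h3 h1
  · have hS0 : ∀ m ∈ (∅ : Finset ℕ), Family m := fun m hm => absurd hm (Finset.notMem_empty m)
    have h1c : Cl 1 := cl_one
    refine (good_iff h1c).2 ?_
    intro m hm hsq
    have h1 : m.primeFactors ∈ XF (multiquadratic ∅) (S0 ∅) :=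
      (sq_iff hS0 (multiquadratic ∅) rfl hm).1 hsq
    have h2 : m.primeFactors = ∅ := by
      have := (mem_XF.1 h1).1
      have h3 : S0 ∅ = ∅ := rfl
      rw [h3] at this
      exact Finset.subset_empty.1 this
    have h3 : m = 1 := cl_ext hm h1c (by rw [h2]; simp)
    rw [h3, tw_self h1c]
    have h4 : IsEmpty (Pool.Agent.Results.MP_4a9ea6_nt.TwoPartTwistsX49.split 1) := by
      refine ⟨fun x => ?_⟩
      have := x.2
      unfold Pool.Agent.Results.MP_4a9ea6_nt.TwoPartTwistsX49.split at this
      simp at this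
    rw [Matrix.det_isEmpty]
    exact one_ne_zero

end Pool.Agent.Results.MP_29b22a_nt.QuadricProducts
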