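import Mathlib
import Pool.Agent.V5helper41.LQ.Iff

/-!
# Beilinson's conjecture for the central values of all varieties as an asymptotic formula for a sum
# over the prime powers

`X` is *any* smooth projective variety over `ℚ`, `i` is odd, `m = (i + 1) / 2`.  The parts (iii) and (iv) of
the conjecture describe the order `r` and the leading coefficient `L^*(X, m)` at `s = m` of
`L(X, s) = L(H^i(X), s)`.  The Euler product converges for `Re s > m + 1/2` only.  The conjecture assumes
(H1), a meromorphic continuation to a neighbourhood of `m`; here it is used in the form: `L(X, s)` is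
meromorphic at the points of the segment `[m, m + 1/2]`.  Nothing is assumed about its zeros and poles
(real or complex), about a functional equation or the growth, and there is no continuation beyond a
neighbourhood of this segment, of whatever size.

Let `α` run through the eigenvalues of the Frobenius at `p` on `H^i(X)`, let `c > π/2` and

`S_c(T) = ∑_{p, k ≥ 1} (∑ α^k / (k p^{km})) K_c(k log p / T)`, `K_c(u) = e^{icu} / Γ(1 + u)`,

an absolutely convergent sum over the prime powers with explicit weights, `T = log x`.  We prove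

`S_c(T) = - r (log T - Λ_c) + log |L^*(X, m)| - π i Z + O(1 / T)`,

where `Z` is the number of the zeros minus the number of the poles of `L(X, s)` in the interval
`(m, m + 1/2]` and `Λ_c = ∫_0^∞ (e^{-t} - K_c(t)) dt / t`.  So for every `X`, every odd `i` and every
single `c > π/2`:

* (iii) is *equivalent* to `Re S_c(T) / log T → - dim V^m`;
* (iii) and (iv) together are *equivalent* to: `exp(S_c(T)) T^ρ → q R e^{ρ Λ_c}` for a rational number
  `q ≠ 0`, where `ρ = dim V^m` and `R = det Π · det ⟨ , ⟩`.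

The sum contains only the numbers of the points of `X` over the finite fields (and the finitely many Euler
factors at the primes of bad reduction).  With the sharp cut-off such a formula would imply the Riemann
hypothesis for `L(X, s)`, and with the positive kernels it would at least exclude the real zeros to the
right of `m`; the rotation by `c > π/2` makes it unconditional.

For elliptic curves the formula is in the starting files (`MP_92892c_nt/RotatedLeadingTerm`,
`Pool/Agent/W187/UR`), where the contour argument is carried out; the rank form for abelian varieties,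
with another kernel and with a continuation to the half-plane `Re s ≥ 1`, is
`MP_1d384c_nt/NumericalCriterion`.
-/

set_option autoImplicit false

namespace Pool.Agent.Results.MP_29b22a_nt.RotatedPrimeSums

open scoped LinearAlgebra.Projectivization
open Filter Topology Set Asymptotics

/-- A projective scheme over `ℤ`: finitely many homogeneous equations with integer coefficients in
the projective space of dimension `N`. -/
structure Variety where
  /-- the dimension of the projective space -/
  N : ℕ
  /-- the equations -/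
  eqs : Finset (MvPolynomial (Fin (N + 1)) ℤ)
  /-- they are homogeneous -/
  hom : ∀ f ∈ eqs, ∃ d, f.IsHomogeneous d

/-- The points of `X` with coordinates in the field `L`. -/
def Variety.points (X : Variety) (L : Type) [Field L] : Set (ℙ L (Fin (X.N + 1) → L)) :=
  {P | ∀ f ∈ X.eqs, MvPolynomial.aeval P.rep f = 0}

/-- `A i`, `i = 0, 1, 2, …`, are the multisets of the eigenvalues of the Frobenius of the field with `p`
elements on `H^i(X)`: they have the absolute value `p ^ (i / 2)`, are the zeros of a polynomial with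
integer coefficients, are empty for large `i`, and for all fields `L` with `p ^ r` elements `X` has
`∑_i (-1)^i ∑_{α ∈ A i} α ^ r` points in `L`.  These properties determine the `A i`; by Deligne's
theorem they exist if `X` is smooth over `ℤ_p`. -/
def IsFrobenius (X : Variety) (p : ℕ) (A : ℕ → Multiset ℂ) : Prop :=
  (∀ i, ∀ α ∈ A i, ‖α‖ ^ 2 = (p : ℝ) ^ i) ∧
  (∀ i, ∃ P : Polynomial ℤ, P.map (Int.castRingHom ℂ) =
    ((A i).map fun α => Polynomial.X - Polynomial.C α).prod) ∧
  ∃ n, (∀ i, n < i → A i = 0) ∧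
    ∀ (L : Type) [Field L] [Finite L] (r : ℕ), Nat.card L = p ^ r →
      ((X.points L).ncard : ℂ) =
        ∑ i ∈ Finset.range (n + 1), (-1) ^ i * ((A i).map fun α => α ^ r).sum

/-- `E p` are the parameters of the Euler factor `∏_{α ∈ E p} (1 - α p^{-s})⁻¹` of `L(H^i(X), s)`: at the
primes `p` not dividing `B` the eigenvalues of the Frobenius on `H^i(X)`, and at the finitely many
primes dividing `B` any numbers of absolute value less than `p ^ ((i + 1) / 2)` that are the zeros of a
polynomial with real coefficients; their number is bounded. -/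
def IsEuler (X : Variety) (B i : ℕ) (E : Nat.Primes → Multiset ℂ) : Prop :=
  (∃ b : ℕ, ∀ p, (E p).card ≤ b) ∧
  (∀ p : Nat.Primes, ¬ (p : ℕ) ∣ B → ∃ A, IsFrobenius X p A ∧ A i = E p) ∧
  ∀ p : Nat.Primes, (p : ℕ) ∣ B → (∀ α ∈ E p, ‖α‖ ^ 2 < ((p : ℕ) : ℝ) ^ (i + 1)) ∧
    ∃ P : Polynomial ℝ, P.map (algebraMap ℝ ℂ) =
      ((E p).map fun α => Polynomial.X - Polynomial.C α).prod

/-- `L` is the Euler product for `Re s > m + 1/2` and meromorphic at all points of the segment
`[m, m + 1/2]`. -/
def IsContinuation (E : Nat.Primes → Multiset ℂ) (m : ℕ) (L : ℂ → ℂ) : Prop :=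
  (∀ x ∈ Icc (0 : ℝ) (1 / 2), MeromorphicAt L ((m : ℂ) + x)) ∧
  ∀ s : ℂ, (m : ℝ) + 1 / 2 < s.re →
    HasProd (fun p : Nat.Primes => ((E p).map fun α => (1 - α * ((p : ℕ) : ℂ) ^ (-s))⁻¹).prod)
      (L s)

/-- `K_c(u) = e^{icu} / Γ(1 + u)`. -/
noncomputable def kernel (c u : ℝ) : ℂ :=
  Complex.exp ((c * u : ℝ) * Complex.I) * ((Real.Gamma (1 + u))⁻¹ : ℝ)

/-- The term of `S_c(T)` at `p ^ (k + 1)`: `∑_α α^{k+1} / ((k + 1) p^{(k+1) m})` times
`K_c((k + 1) log p / T)`. -/
noncomputable def term (E : Nat.Primes → Multiset ℂ) (m : ℕ) (c T : ℝ) (x : Nat.Primes × ℕ) : ℂ :=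
  ((E x.1).map fun α => α ^ (x.2 + 1)).sum / ((x.2 + 1) * (((x.1 : ℕ) : ℂ) ^ m) ^ (x.2 + 1)) *
    kernel c ((x.2 + 1) * Real.log ((x.1 : ℕ) : ℝ) / T)

/-- `S_c(T)`. -/
noncomputable def primeSum (E : Nat.Primes → Multiset ℂ) (m : ℕ) (c T : ℝ) : ℂ :=
  ∑' x, term E m c T x

/-- `Λ_c = ∫_0^∞ (e^{-t} - K_c(t)) dt / t`. -/
noncomputable def Lambda (c : ℝ) : ℂ :=
  ∫ t in Ioi (0 : ℝ), (Complex.exp (-(t : ℂ)) - kernel c t) / t

/-- The number of the zeros minus the number of the poles of `L` in `(m, m + 1/2]`, with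
multiplicities. -/
noncomputable def realZeros (L : ℂ → ℂ) (m : ℕ) : ℤ :=
  ∑ᶠ σ ∈ Ioc ((m : ℝ)) (m + 1 / 2), (meromorphicOrderAt L (σ : ℂ)).untop₀

open Pool.Agent.V5helper41.LQ

lemma real_sum {B : Multiset ℂ} {P : Polynomial ℝ}
    (h : P.map (algebraMap ℝ ℂ) = (B.map fun α => Polynomial.X - Polynomial.C α).prod) (k : ℕ) :
    ((B.map fun α => α ^ k).sum).im = 0 := by
  have h1 : (B.map (starRingEnd ℂ)) = B := by
    have h2 := congrArg (Polynomial.map (starRingEnd ℂ)) h
    rw [Polynomial.map_map, Polynomial.map_multiset_prod, Multiset.map_map] at h2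
    have h3 : (starRingEnd ℂ).comp (algebraMap ℝ ℂ) = algebraMap ℝ ℂ := by
      ext x
      simp
    rw [h3, h] at h2
    have h4 : (B.map (Polynomial.map (starRingEnd ℂ) ∘ fun α => Polynomial.X - Polynomial.C α)) =
        (B.map (starRingEnd ℂ)).map fun α => Polynomial.X - Polynomial.C α := by
      rw [Multiset.map_map]
      refine Multiset.map_congr rfl fun α _ => ?_
      simp
    rw [h4] at h2
    have h5 := congrArg Polynomial.roots h2
    rw [Polynomial.roots_multiset_prod_X_sub_C, Polynomial.roots_multiset_prod_X_sub_C] at h5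
    exact h5.symm
  rw [← Complex.conj_eq_iff_im, map_multiset_sum, Multiset.map_map]
  conv_rhs => rw [← h1, Multiset.map_map]
  refine congrArg Multiset.sum (Multiset.map_congr rfl fun α _ => ?_)
  simp

open scoped Classical in
lemma tame {X : Variety} {B i m : ℕ} (him : i + 1 = 2 * m) (hB : B ≠ 0)
    {E : Nat.Primes → Multiset ℂ} (hE : IsEuler X B i E) :
    ∃ (b : ℕ) (S : Finset Nat.Primes), Tame E m b S := by
  obtain ⟨⟨b, hb⟩, hg, hbad⟩ := hE
  have hfin : {p : Nat.Primes | (p : ℕ) ∣ B}.Finite := by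
    refine Set.Finite.of_finite_image (f := fun p : Nat.Primes => (p : ℕ)) ?_
      (fun p _ q _ h => Subtype.ext h)
    refine (Nat.divisors B).finite_toSet.subset ?_
    rintro _ ⟨p, hp, rfl⟩
    exact Finset.mem_coe.2 (Nat.mem_divisors.2 ⟨hp, hB⟩)
  have hlt : ∀ (p : Nat.Primes) (α : ℂ), ‖α‖ ^ 2 < ((p : ℕ) : ℝ) ^ (i + 1) →
      ‖α‖ < ((p : ℕ) : ℝ) ^ m := by
    intro p α h
    rw [him, mul_comm, pow_mul] at h
    exact lt_of_pow_lt_pow_left₀ 2 (by positivity) h
  refine ⟨b, hfin.toFinset, hb, fun p α hα => ?_, fun p hp α hα => ?_, fun x => ?_⟩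
  · by_cases hp : (p : ℕ) ∣ B
    · exact hlt p α ((hbad p hp).1 α hα)
    · obtain ⟨A, hA, hAE⟩ := hg p hp
      refine hlt p α ?_
      rw [← hAE] at hα
      rw [hA.1 i α hα]
      exact pow_lt_pow_right₀ (by exact_mod_cast p.2.one_lt) (Nat.lt_succ_self i)
  · have hp' : ¬ (p : ℕ) ∣ B := fun h => hp (hfin.mem_toFinset.2 h)
    obtain ⟨A, hA, hAE⟩ := hg p hp'
    rw [← hAE] at hα
    have hp0 := p_pos p
    refine le_of_sq_le_sq ?_ (by positivity)
    rw [hA.1 i α hα, ← Real.rpow_natCast _ 2, ← Real.rpow_mul hp0.le, ← Real.rpow_natCast]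
    refine le_of_eq ?_
    congr 1
    have h1 : (i : ℝ) + 1 = 2 * m := by exact_mod_cast him
    push_cast
    linarith
  · unfold pw
    by_cases hp : (x.1 : ℕ) ∣ B
    · obtain ⟨P, hP⟩ := (hbad x.1 hp).2
      exact real_sum hP _
    · obtain ⟨A, hA, hAE⟩ := hg x.1 hp
      obtain ⟨P, hP⟩ := hA.2.1 i
      rw [hAE] at hP
      refine real_sum (P := P.map (Int.castRingHom ℝ)) ?_ _
      rw [Polynomial.map_map, ← hP]
      congr 1

/-- **Main theorem.**  `X` is a projective variety over `ℚ`, `i + 1 = 2 m`, `E` are the parameters of the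
Euler factors of `L(H^i(X), s)`, and `L` is its meromorphic continuation to a neighbourhood of the
segment `[m, m + 1/2]`.  Then

* `S_c(T)` converges absolutely for all real `c` and all `T > 0`;
* the order `r` of `L` at `m` is finite, the leading coefficient `l` is real, and for all `c > π/2`
  `S_c(T) = - r (log T - Λ_c) + log |l| - π i Z + O(1/T)`, `Z` the number of the real zeros minus the
  number of the real poles to the right of `m`;
* `ord_{s=m} L = ρ` if and only if `Re S_c(T) / log T → - ρ`;
* for every real number `R ≠ 0`: `ord_{s=m} L = ρ` and `l` is a nonzero rational multiple of `R` if and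
  only if `exp(S_c(T)) T^ρ` tends to `q R e^{ρ Λ_c}` for a nonzero rational number `q`. -/
theorem result (X : Variety) (B i m : ℕ) (him : i + 1 = 2 * m) (hB : B ≠ 0)
    (E : Nat.Primes → Multiset ℂ) (hE : IsEuler X B i E) (L : ℂ → ℂ) (hL : IsContinuation E m L) :
    (∀ c T : ℝ, 0 < T → Summable fun x => ‖term E m c T x‖) ∧
    ∃ (r : ℤ) (l : ℝ), meromorphicOrderAt L m = r ∧ meromorphicTrailingCoeffAt L m = l ∧ l ≠ 0 ∧
      ∀ c : ℝ, Real.pi / 2 < c →
        (fun T : ℝ => primeSum E m c T - (-r * (Real.log T - Lambda c) + Real.log |l| -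
          Real.pi * realZeros L m * Complex.I)) =O[atTop] (fun T : ℝ => 1 / T) ∧
        (∀ ρ : ℤ, meromorphicOrderAt L m = ρ ↔
          Tendsto (fun T : ℝ => (primeSum E m c T).re / Real.log T) atTop (𝓝 (-(ρ : ℝ)))) ∧
        ∀ (ρ : ℤ) (R : ℝ), R ≠ 0 →
          ((meromorphicOrderAt L m = ρ ∧
              ∃ q : ℚ, q ≠ 0 ∧ meromorphicTrailingCoeffAt L m = q * R) ↔
            ∃ q : ℚ, q ≠ 0 ∧ Tendsto (fun T : ℝ => Complex.exp (primeSum E m c T) * (T : ℂ) ^ ρ)
              atTop (𝓝 (q * R * Complex.exp (ρ * Lambda c)))) := by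
  obtain ⟨b, S, H⟩ := tame him hB hE
  obtain ⟨r, l, hr, hl, hl0, hsg, h⟩ := law H hL.1 hL.2
  refine ⟨fun c T hT => trm_summable H c hT, r, l, hr, hl, hl0, fun c hc => ?_⟩
  have h1 := h c hc
  have h2 := exp_form hl0 hsg h1
  have h3 := log_form h1
  have hl0c : (l : ℂ) ≠ 0 := by exact_mod_cast hl0
  refine ⟨?_, fun ρ => ⟨fun h4 => ?_, fun h4 => ?_⟩, fun ρ R hR => ⟨?_, ?_⟩⟩
  · refine h1.congr_left fun T => ?_
    have e1 : primeSum E m c T = ∑' x, trm E m c T x := rfl
    have e2 : Lambda c = Pool.Agent.W187.UR.Lam c := rfl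
    have e3 : realZeros L m = exc L m := rfl
    rw [e1, e2, e3]
    ring
  · rw [hr] at h4
    have h5 : r = ρ := by exact_mod_cast h4
    rw [← h5]
    exact h3
  · have h5 := tendsto_nhds_unique h3 h4
    have h6 : r = ρ := by
      have h7 : (r : ℝ) = ρ := by linarith
      exact_mod_cast h7
    rw [hr, h6]
  · rintro ⟨h4, q, hq, h5⟩
    rw [hr] at h4
    have h6 : r = ρ := by exact_mod_cast h4
    subst h6
    refine ⟨q, hq, ?_⟩
    rw [← h5, hl]
    exact h2
  · rintro ⟨q, hq, h4⟩
    have hqR : (q : ℂ) * R ≠ 0 := by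
      refine mul_ne_zero ?_ ?_
      · exact_mod_cast hq
      · exact_mod_cast hR
    obtain ⟨h5, h6⟩ := exp_unique (mul_ne_zero hl0c (Complex.exp_ne_zero _))
      (mul_ne_zero hqR (Complex.exp_ne_zero _)) h2 h4
    subst h5
    refine ⟨hr, q, hq, ?_⟩
    rw [hl]
    exact (mul_right_cancel₀ (Complex.exp_ne_zero _) h6).symm

end Pool.Agent.Results.MP_29b22a_nt.RotatedPrimeSums
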