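import Mathlib
import Pool.Agent.V5helper41.SB.Fd
import Pool.Agent.V5helper41.SB.Mc
import Pool.Agent.V5helper41.SB.Cm
import Pool.Agent.V5helper41.BA.Main

/-!
# Beilinson's conjecture on ranks for products `X_a × Y`, in all the odd degrees: reduction to the
# elliptic curves over `ℚ`, for all the curves with primes in a given finite set

Let `m ≥ 1` be an integer and `p₀ ≠ 3` a prime dividing `m`.  We construct an infinite sequence of cyclic
cubic polynomials `t³ - 3 N_i t - T_i` such that the following holds for all `k` and the abelian extension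
`F = ℚ(ω, θ_0, …, θ_{k-1})` of `ℚ`, of degree `2 · 3 ^ k` (`θ_i` a root of the polynomial of index `i`,
`ω` a root of unity of order `3`).

Let `E_D : y² + D y = x³` (`3`-isogenous to `x³ + y³ = D`), where `D` is ANY cube-free number composed of
primes dividing `m`, divisible by `p₀`, prime to `3` and not `± 1` modulo `9`.  Let `X_a` be a diagonal
cubic of the dimension `1`, `3` or `5`,

  `a_0 x_0³ + … + a_{n+1} x_{n+1}³ = 0`, `n = 2 c + 1`, `c ≤ 2`,

such that for all `T` with `c` elements `δ_T = ∏ a_i ∏_{i ∈ T} a_i` is `±` such a number `D_T` times a cube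
(example: all `a_i = 1` but one which is `D`, `D` squarefree); the intermediate Jacobian of `X_a` is
isogenous to `∏_T E_{D_T}`.  Let `Y` be *any* projective variety over `ℚ` whose cohomology is of
Artin–Tate type and becomes a sum of Tate twists over `F` (`IsArtinTate`), with the representation `ρ_j`
of `Gal(F/ℚ)` on `H^{2j}(Y)(j)`.

**Result.**  (1) *In every odd degree* `i = 2 c + 1 + 2 j` the function `L(H^i(X_a × Y), s)` is entire and
its order at the centre `s = (i + 1) / 2` is exactly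
`dim (ρ_j ^ {Gal(F/ℚ(ω))}) · ∑_T ord_{s=1} L(E_{D_T}/ℚ, s)`; in the other odd degrees the order is `0`.
(2) For all the `D` of the class and all the complex representations `ρ` of `Gal(F/ℚ)` the space of the
equivariant homomorphisms from `E_D(F)` to `ρ` has exactly the dimension
`dim (ρ ^ {Gal(F/ℚ(ω))}) · rank E_D(ℚ)`; and the rank of `E_D(F)` is twice the one of `E_D(ℚ)`.

Meaning for Beilinson's conjecture.  If `Y` is smooth projective and its Chow motive over `F` is a sum of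
Tate motives, then for `X = X_a × Y` and `m = (i + 1) / 2` the space `V^m ⊗ ℂ` is the space of the
invariants of `Gal(F/ℚ)` in `⊕_T (E_{D_T}(F) ⊗ ρ_j)` (Bloch–Murre, Collino, Paranjape; not formalized), it
has the dimension of the space of the equivariant homomorphisms of (2).  So the part (iii) of the
conjecture for all the products `X_a × Y`, in all the odd degrees, follows from its case `E_{D_T}/ℚ`,
`i = 1`, for all the ranks; and it is true, with ranks that can be positive, if the analytic ranks of the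
`E_{D_T}` are at most `1` (Gross–Zagier, Kolyvagin), for example for the `a` with all `a_i = 1` but one
which is `7`.  For `X_a` of dimension `1` it is equivalent to it.

The non-vanishing and the finiteness for the cubic twists by elements of `ℤ[ω]` come from the starting
files (`Y696`, `R432`); new are the universal networks of cubic residue symbols that are stable under the
complex conjugation, the abelian fields and the local identity for all the Artin twists
(`Pool/Agent/V5helper41/ST`, `Pool/Agent/V5helper41/SB`).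
-/

set_option autoImplicit false

namespace Pool.Agent.Results.MP_29b22a_nt.StableTowers

open scoped Classical LinearAlgebra.Projectivization
open NumberField IsDedekindDomain

/-- A projective variety over `ℚ`: finitely many homogeneous equations with integer coefficients in
the projective space of dimension `N`. -/
structure Variety where
  /-- the dimension of the projective space -/
  N : ℕ
  /-- the equations -/
  eqs : Finset (MvPolynomial (Fin (N + 1)) ℤ)
  /-- they are homogeneous -/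
  hom : ∀ f ∈ eqs, ∃ d, f.IsHomogeneous d

/-- The points of `Y` with coordinates in the field `L`. -/
def Variety.points (Y : Variety) (L : Type) [Field L] : Set (ℙ L (Fin (Y.N + 1) → L)) :=
  {P | ∀ f ∈ Y.eqs, MvPolynomial.aeval P.rep f = 0}

/-- The diagonal cubic `∑ a i x i ^ 3 = 0` in the projective space of dimension `N`. -/
noncomputable def diagonal {N : ℕ} (a : Fin (N + 1) → ℤ) : Variety :=
  ⟨N, {∑ i, MvPolynomial.C (a i) * MvPolynomial.X i ^ 3}, fun f hf => ⟨3, by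
    rw [Finset.mem_singleton] at hf
    subst hf
    refine MvPolynomial.IsHomogeneous.sum _ _ _ fun i _ => ?_
    have h := (MvPolynomial.isHomogeneous_C (Fin (N + 1)) (a i)).mul
      ((MvPolynomial.isHomogeneous_X ℤ i).pow 3)
    simpa using h⟩⟩

/-- The cohomology of `Y` is of Artin–Tate type and `Gal(F/ℚ)` acts on it, up to the Tate twists, by the
representations `ρ k` (on `H^{2k}(Y)(k)`): for all primes `p` not dividing `B`, all places `w` of `F`
above `p`, all arithmetic Frobenius elements `σ` at `w` and all fields `L` with `p ^ n` elements the number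
of the points is `#Y(L) = ∑_k tr(ρ_k(σ⁻¹) ^ n) (p ^ n) ^ k`. -/
def IsArtinTate (Y : Variety) (F : Type) [Field F] [NumberField F] (B : ℕ) {b : ℕ → ℕ}
    (ρ : ∀ k, (F ≃ₐ[ℚ] F) →* Matrix (Fin (b k)) (Fin (b k)) ℂ) : Prop :=
  ∀ (p : ℕ) (w : HeightOneSpectrum (𝓞 F)) (σ : F ≃ₐ[ℚ] F), p.Prime → ¬ p ∣ B →
    (p : 𝓞 F) ∈ w.asIdeal → IsArithFrobAt ℤ σ w.asIdeal →
    ∀ (L : Type) [Field L] [Finite L] (n : ℕ), Nat.card L = p ^ n →
      ((Y.points L).ncard : ℂ) =
        ∑ k ∈ Finset.range (Y.N + 1), (ρ k σ⁻¹ ^ n).trace * ((p : ℂ) ^ n) ^ k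

/-- `A i`, `i = 0, 1, 2, …`, are the multisets of the eigenvalues of the Frobenius of the field with `p`
elements on `H^i(X × Y)`: they have the absolute value `p ^ (i / 2)`, are empty for large `i`, and for
all fields `L` with `p ^ r` elements the product `X × Y` has `∑_i (-1)^i ∑_{α ∈ A i} α ^ r` points in
`L`.  These properties determine the `A i`. -/
def IsFrobenius (X Y : Variety) (p : ℕ) (A : ℕ → Multiset ℂ) : Prop :=
  (∀ i, ∀ α ∈ A i, ‖α‖ ^ 2 = (p : ℝ) ^ i) ∧ ∃ m, (∀ i, m < i → A i = 0) ∧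
    ∀ (L : Type) [Field L] [Finite L] (r : ℕ), Nat.card L = p ^ r →
      ((X.points L ×ˢ Y.points L).ncard : ℂ) =
        ∑ i ∈ Finset.range (m + 1), (-1) ^ i * ((A i).map fun α => α ^ r).sum

/-- In every odd degree `i` the function `L(H^i(X × Y), s)`, without the Euler factors at the primes
dividing `B`, is entire (it is the Euler product for `Re s > i / 2 + 1`) and its order at the centre
`s = (i + 1) / 2` is `n i`.  The number of the eigenvalues does not depend on `p`. -/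
def HasOrders (X Y : Variety) (B : ℕ) (n : ℕ → ℕ) : Prop :=
  ∃ A : Nat.Primes → ℕ → Multiset ℂ,
    (∀ p : Nat.Primes, ¬ (p : ℕ) ∣ B → IsFrobenius X Y p (A p)) ∧
    (∃ h : ℕ → ℕ, ∀ p : Nat.Primes, ¬ (p : ℕ) ∣ B → ∀ i, (A p i).card = h i) ∧
    ∀ i : ℕ, Odd i → ∃ L : ℂ → ℂ, Differentiable ℂ L ∧
      (∀ s : ℂ, (i : ℝ) / 2 + 1 < s.re →
        HasProd (fun p : Nat.Primes => if (p : ℕ) ∣ B then 1 else
          ((A p i).map fun α => (1 - α * ((p : ℕ) : ℂ) ^ (-s))⁻¹).prod) (L s)) ∧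
      analyticOrderAt L ((i + 1) / 2) = n i

/-- The curve `E_D : y² + D y = x³`. -/
def curve {L : Type} [Field L] (D : L) : WeierstrassCurve L := ⟨0, 0, D, 0, 0⟩

/-- `V v` is, for every prime `v`, an integral model of `E` with discriminant minimal at `v`. -/
def MinimalModels (E : WeierstrassCurve ℚ)
    (V : HeightOneSpectrum (𝓞 ℚ) → WeierstrassCurve (𝓞 ℚ)) : Prop :=
  ∀ v : HeightOneSpectrum (𝓞 ℚ),
    (∃ C : WeierstrassCurve.VariableChange ℚ, C • (V v).map (algebraMap (𝓞 ℚ) ℚ) = E) ∧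
    ∀ W : WeierstrassCurve (𝓞 ℚ),
      (∃ C : WeierstrassCurve.VariableChange ℚ, C • W.map (algebraMap (𝓞 ℚ) ℚ) = E) →
        ∀ n : ℕ, (V v).Δ ∈ v.asIdeal ^ n → W.Δ ∈ v.asIdeal ^ n

/-- The Euler factor at `v`, computed from the reduction of `V v`: `(1 - a_v q_v^{-s} + q_v^{1-2s})⁻¹` if
the reduction is good and `(1 - a_v q_v^{-s})⁻¹` if it is bad, where `a_v` is `q_v` minus the number of
affine points of the reduction (so `a_v = 1`, `-1`, `0` in the cases of split multiplicative, non-split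
multiplicative and additive reduction). -/
noncomputable def factor (V : HeightOneSpectrum (𝓞 ℚ) → WeierstrassCurve (𝓞 ℚ)) (s : ℂ)
    (v : HeightOneSpectrum (𝓞 ℚ)) : ℂ :=
  (1 - ((Ideal.absNorm v.asIdeal : ℂ)
        - (Nat.card {xy : (𝓞 ℚ ⧸ v.asIdeal) × (𝓞 ℚ ⧸ v.asIdeal) //
            ((V v).map (Ideal.Quotient.mk v.asIdeal)).toAffine.Equation xy.1 xy.2} : ℂ))
        * (Ideal.absNorm v.asIdeal : ℂ) ^ (-s)
    + (if (V v).Δ ∈ v.asIdeal then 0 else (Ideal.absNorm v.asIdeal : ℂ))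
        * (Ideal.absNorm v.asIdeal : ℂ) ^ (-2 * s))⁻¹

/-- The analytic rank of `E` over `ℚ` exists and is `n`: `E` has minimal models, and there is a function
`Λ`, meromorphic on `ℂ`, that is the Euler product over all primes for `Re s > 3/2`, whatever the minimal
models, is analytic at `s = 1` and has there a zero of order exactly `n`. -/
def AnalyticRank (E : WeierstrassCurve ℚ) (n : ℕ) : Prop :=
  (∃ V : HeightOneSpectrum (𝓞 ℚ) → WeierstrassCurve (𝓞 ℚ), MinimalModels E V) ∧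
    ∃ Λ : ℂ → ℂ, (MeromorphicOn Λ Set.univ ∧
      ∀ V : HeightOneSpectrum (𝓞 ℚ) → WeierstrassCurve (𝓞 ℚ), MinimalModels E V →
        ∀ s : ℂ, 3 / 2 < s.re → HasProd (factor V s) (Λ s)) ∧
      AnalyticAt ℂ Λ 1 ∧ analyticOrderAt Λ 1 = n

/-- `δ_T = ∏ a i ∏_{i ∈ T} a i`. -/
def twist {m : ℕ} (a : Fin m → ℤ) (T : Finset (Fin m)) : ℤ := (∏ i, a i) * ∏ i ∈ T, a i

/-- `D` is cube-free, not divisible by `3`, not `± 1` modulo `9`, divisible by `p₀`, and the primes
dividing `D` divide `m`. -/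
def InClass (m p₀ D : ℕ) : Prop :=
  (∀ n : ℕ, n ^ 3 ∣ D → n = 1) ∧ ¬ 3 ∣ D ∧ D % 9 ≠ 1 ∧ D % 9 ≠ 8 ∧ p₀ ∣ D ∧
    ∀ p : ℕ, p.Prime → p ∣ D → p ∣ m

/-- `F = ℚ(ω, θ_0, …, θ_{k-1})`, `ω² + ω + 1 = 0`, `θ_i³ = 3 N_i θ_i + T_i`. -/
def Generated (N : ℕ → ℕ) (T : ℕ → ℤ) (k : ℕ) {F : Type} [Field F] (ω : F) : Prop :=
  ω ^ 2 + ω + 1 = 0 ∧ ∃ θ : ℕ → F, (∀ i, i < k → θ i ^ 3 = 3 * (N i : F) * θ i + (T i : F)) ∧
    ∀ K : Subfield F, ω ∈ K → (∀ i, i < k → θ i ∈ K) → K = ⊤

/-- The dimension of the space of the vectors fixed by all the automorphisms that fix `ω`. -/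
noncomputable def fixedDim {F : Type} [Field F] [NumberField F] (ω : F) {b : ℕ}
    (ρ : (F ≃ₐ[ℚ] F) →* Matrix (Fin b) (Fin b) ℂ) : ℕ :=
  Module.finrank ℂ (⨅ σ : {σ : F ≃ₐ[ℚ] F // σ ω = ω},
    LinearMap.ker (Matrix.toLin' (ρ σ.1) - LinearMap.id) : Submodule ℂ (Fin b → ℂ))

/-- The vector space of the `Gal(F/ℚ)`-equivariant homomorphisms from `E_D(F)` to the space of the
representation `ρ`: the additive `f` with `f (σ x, σ y) = ρ(σ) f(x, y)`. -/
def equivariant (D : ℕ) {F : Type} [Field F] [NumberField F] {b : ℕ}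
    (ρ : (F ≃ₐ[ℚ] F) →* Matrix (Fin b) (Fin b) ℂ) :
    Submodule ℂ ((curve (D : F)).toAffine.Point → Fin b → ℂ) where
  carrier := {f | (∀ P Q, f (P + Q) = f P + f Q) ∧
    ∀ (σ : F ≃ₐ[ℚ] F) (x y : F) (h : (curve (D : F)).toAffine.Nonsingular x y)
      (h' : (curve (D : F)).toAffine.Nonsingular (σ x) (σ y)),
      f (.some (σ x) (σ y) h') = (ρ σ).mulVec (f (.some x y h))}
  add_mem' := fun {f g} hf hg => ⟨fun P Q => by
    rw [Pi.add_apply, Pi.add_apply, Pi.add_apply, hf.1, hg.1]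
    abel, fun σ x y h h' => by
    rw [Pi.add_apply, Pi.add_apply, hf.2 σ x y h h', hg.2 σ x y h h', Matrix.mulVec_add]⟩
  zero_mem' := ⟨fun P Q => by simp, fun σ x y h h' => by simp⟩
  smul_mem' := fun c f hf => ⟨fun P Q => by
    rw [Pi.smul_apply, Pi.smul_apply, Pi.smul_apply, hf.1, smul_add], fun σ x y h h' => by
    rw [Pi.smul_apply, Pi.smul_apply, hf.2 σ x y h h', Matrix.mulVec_smul]⟩

section proof

open Pool.Agent.TH841.NF (Sc)
open Pool.Agent.Y692.QS (Ei w nr toC)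
open Pool.Agent.Y715.T.RecG (Pq)
open Pool.Agent.Y699.E (PD mem_PD)
open Pool.Agent.R432.C (ED)
open Pool.Agent.H341R2.EC (IsModel IsMinAt red aff trc dlt)
open Pool.Agent.R433.MD (lf exists_minimal)
open Pool.Agent.H921R2.TatePole (nm two_le_nm)
open Pool.Agent.V5helper41.ST (SeqS exists_seqS NQ TQ dS NQ_ne order_unique ellc HL tw rank_inst)
open Pool.Agent.V5helper41.SB
open Pool.Agent.V5helper41.BA (PC exists_frb exists_b beta_mul Aw Aw_weight Aw_top Aw_count Aw_card ev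
  trace_ev card_ev norm_rho count_odd)
open Pool.Agent.N842.EB (Us dt_zero_right)

lemma points_diagonal {N : ℕ} (a : Fin (N + 1) → ℤ) (L : Type) [Field L] :
    (diagonal a).points L = PC a L := by
  ext P
  unfold Variety.points diagonal PC
  simp

theorem isModel_iff (E : WeierstrassCurve ℚ) (W : WeierstrassCurve (𝓞 ℚ)) :
    (∃ C : WeierstrassCurve.VariableChange ℚ, C • W.map (algebraMap (𝓞 ℚ) ℚ) = E) ↔
      IsModel E W := by
  constructor
  · rintro ⟨C, hC⟩
    exact ⟨C⁻¹, by rw [← hC, inv_smul_smul]⟩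
  · rintro ⟨C, hC⟩
    exact ⟨C⁻¹, by rw [← hC, inv_smul_smul]⟩

theorem minimalModels_iff (E : WeierstrassCurve ℚ)
    (V : HeightOneSpectrum (𝓞 ℚ) → WeierstrassCurve (𝓞 ℚ)) :
    MinimalModels E V ↔ ∀ v, IsMinAt E v (V v) := by
  unfold MinimalModels IsMinAt
  simp only [isModel_iff]

theorem factor_eq (V : HeightOneSpectrum (𝓞 ℚ) → WeierstrassCurve (𝓞 ℚ)) (s : ℂ)
    (v : HeightOneSpectrum (𝓞 ℚ)) : factor V s v = (lf V s v)⁻¹ := by
  unfold factor
  congr 1
  unfold lf trc dlt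
  have h0 : ((nm v : ℕ) : ℂ) ≠ 0 := by
    have := two_le_nm v
    exact_mod_cast (by omega : nm v ≠ 0)
  have e1 : Nat.card {xy : (𝓞 ℚ ⧸ v.asIdeal) × (𝓞 ℚ ⧸ v.asIdeal) //
      ((V v).map (Ideal.Quotient.mk v.asIdeal)).toAffine.Equation xy.1 xy.2} =
      aff (red v (V v)) := by
    unfold aff red
    refine Nat.card_congr (Equiv.subtypeEquivRight fun xy => ?_)
    rw [WeierstrassCurve.Affine.equation_iff]
  have e2 : ((nm v : ℕ) : ℂ) ^ (1 - 2 * s) = ((nm v : ℕ) : ℂ) * ((nm v : ℕ) : ℂ) ^ (-2 * s) := by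
    rw [sub_eq_add_neg, Complex.cpow_add _ _ h0, Complex.cpow_one]
    congr 2
    ring
  have e3 : (Ideal.absNorm v.asIdeal : ℂ) = ((nm v : ℕ) : ℂ) := rfl
  rw [e1, e2, e3]
  push_cast
  split_ifs with h
  · ring
  · ring

/-- the analytic rank from the theorems of the helper files -/
theorem analyticRank_of {E : WeierstrassCurve ℚ} (hE : E.IsElliptic) {n : ℕ}
    (h : ∃ Λ : ℂ → ℂ, MeromorphicOn Λ Set.univ ∧ AnalyticAt ℂ Λ 1 ∧
      (∀ V : HeightOneSpectrum (𝓞 ℚ) → WeierstrassCurve (𝓞 ℚ), (∀ v, IsMinAt E v (V v)) →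
        ∀ s : ℂ, 3 / 2 < s.re → HasProd (fun v => (lf V s v)⁻¹) (Λ s)) ∧
      analyticOrderAt Λ 1 = n) : AnalyticRank E n := by
  obtain ⟨Λ, h1, h2, h3, h4⟩ := h
  obtain ⟨V0, hV0⟩ := exists_minimal E hE
  refine ⟨⟨V0, (minimalModels_iff _ _).2 hV0⟩, Λ, ⟨h1, fun V hV s hs => ?_⟩, h2, h4⟩
  exact (h3 V ((minimalModels_iff _ _).1 hV) s hs).congr_fun fun v => (factor_eq V s v)

/-- the analytic rank is unique -/
theorem analyticRank_unique {E : WeierstrassCurve ℚ} {n n' : ℕ} (h : AnalyticRank E n)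
    (h' : AnalyticRank E n') : n = n' := by
  obtain ⟨⟨V, hV⟩, Λ, ⟨h1, h2⟩, h3, h4⟩ := h
  obtain ⟨-, Λ', ⟨h1', h2'⟩, h3', h4'⟩ := h'
  have h5 := order_unique h1 h1' h3 h3' fun s hs => (h2 V hV s hs).unique (h2' V hV s hs)
  rw [h4, h4'] at h5
  exact_mod_cast h5

theorem rank_D {F : Type} [Field F] {a b : Cardinal.{0}} {D : F}
    (h : Module.rank ℤ (ED D).toAffine.Point = a) (hab : a = b) :
    Module.rank ℤ (curve D).toAffine.Point = b := by
  rw [← hab, ← h]
  rfl

/-- the dimension of the fixed space is the multiplicity of the trivial character -/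
theorem fixed_eq {F : Type} [Field F] [NumberField F] {φ : Ei →+* 𝓞 F} {k : ℕ} {d : Fin k → Ei}
    {N : Fin k → ℕ} {x : Fin k → 𝓞 F} (C : CA φ d N x) {b : ℕ}
    (ρ : (F ≃ₐ[ℚ] F) →* Matrix (Fin b) (Fin b) ℂ) : mt C ρ 0 = fixedDim (zF φ) ρ := by
  unfold Pool.Agent.V5helper41.SB.mt fixedDim
  have h : Us (toC w) (rV C ρ) 0 = ⨅ σ : {σ : F ≃ₐ[ℚ] F // σ (zF φ) = zF φ},
      LinearMap.ker (Matrix.toLin' (ρ σ.1) - LinearMap.id) := by
    ext u
    rw [Submodule.mem_iInf]
    constructor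
    · intro hu σ
      rw [LinearMap.mem_ker, LinearMap.sub_apply, LinearMap.id_apply, sub_eq_zero]
      have h1 := hu (C.kv σ.1)
      unfold rV at h1
      rw [← C.eq_s σ.2, dt_zero_right, ZMod.val_zero, pow_zero, one_smul] at h1
      exact h1
    · intro hu c
      have h1 := hu ⟨C.s c, C.s_z c⟩
      rw [LinearMap.mem_ker, LinearMap.sub_apply, LinearMap.id_apply, sub_eq_zero] at h1
      rw [dt_zero_right, ZMod.val_zero, pow_zero, one_smul]
      exact h1
  rw [h]

theorem fix_sub {F : Type} [Field F] [NumberField F] (ω : F) {b : ℕ}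
    (ρ : (F ≃ₐ[ℚ] F) →* Matrix (Fin b) (Fin b) ℂ) :
    Module.finrank ℂ (Fx (fun σ : F ≃ₐ[ℚ] F => σ ω = ω) ρ) = fixedDim ω ρ := by
  unfold fixedDim
  have h : Fx (fun σ : F ≃ₐ[ℚ] F => σ ω = ω) ρ = ⨅ σ : {σ : F ≃ₐ[ℚ] F // σ ω = ω},
      LinearMap.ker (Matrix.toLin' (ρ σ.1) - LinearMap.id) := by
    ext u
    rw [Submodule.mem_iInf]
    constructor
    · intro hu σ
      rw [LinearMap.mem_ker, LinearMap.sub_apply, LinearMap.id_apply, sub_eq_zero,
        Matrix.toLin'_apply]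
      exact hu σ.1 σ.2
    · intro hu σ hσ
      have h1 := hu ⟨σ, hσ⟩
      rw [LinearMap.mem_ker, LinearMap.sub_apply, LinearMap.id_apply, sub_eq_zero,
        Matrix.toLin'_apply] at h1
      exact h1
  rw [h]

theorem equiv_eq {F : Type} [Field F] [NumberField F] (D : ℕ)
    (ha : ((D : ℕ) : F) = algebraMap ℚ F ((D : ℕ) : ℚ)) {b : ℕ}
    (ρ : (F ≃ₐ[ℚ] F) →* Matrix (Fin b) (Fin b) ℂ) :
    equivariant D ρ = Eq (actP ((D : ℕ) : ℚ) ((D : ℕ) : F) ha) ρ := by
  ext f
  constructor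
  · rintro ⟨h1, h2⟩
    refine ⟨h1, ?_⟩
    rintro σ (_ | ⟨x, y, h⟩)
    · have h0 : f 0 = 0 := by
        have h3 := h1 0 0
        rw [add_zero] at h3
        exact left_eq_add.1 h3
      change f (actP ((D : ℕ) : ℚ) ((D : ℕ) : F) ha σ 0) = (ρ σ).mulVec (f 0)
      rw [map_zero]
      exact h0.trans (by rw [h0, Matrix.mulVec_zero])
    · obtain ⟨h', e⟩ := actP_some ((D : ℕ) : ℚ) ha σ x y h
      rw [e]
      exact h2 σ x y h h'
  · rintro ⟨h1, h2⟩
    refine ⟨h1, fun σ x y h h' => ?_⟩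
    obtain ⟨h3, e⟩ := actP_some ((D : ℕ) : ℚ) ha σ x y h
    have h4 := h2 σ (.some x y h)
    rw [e] at h4
    exact h4

theorem main (m p₀ : ℕ) (hm : m ≠ 0) (hp₀ : p₀.Prime) (hp3 : p₀ ≠ 3) (hpm : p₀ ∣ m) :
    (∀ D : ℕ, InClass m p₀ D → ∃ n : ℕ, AnalyticRank (curve (D : ℚ)) n) ∧
    ∃ (N : ℕ → ℕ) (T : ℕ → ℤ),
      (∀ i, Squarefree (N i) ∧ N i ≠ 1 ∧ (∃ e : ℤ, 4 * (N i : ℤ) ^ 3 - T i ^ 2 = 27 * e ^ 2) ∧
        ∀ p : ℕ, p.Prime → p ∣ N i → p % 9 = 1 ∧ ¬ p ∣ m ∧ ∀ l, l ≠ i → ¬ p ∣ N l) ∧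
      ∀ k : ℕ,
        (∃ (F : Type) (_ : Field F) (_ : NumberField F) (ω : F), Generated N T k ω) ∧
        ∀ (F : Type) [Field F] [NumberField F] (ω : F), Generated N T k ω →
          IsGalois ℚ F ∧ Module.finrank ℚ F = 2 * 3 ^ k ∧ (∀ σ τ : F ≃ₐ[ℚ] F, σ * τ = τ * σ) ∧
          (∀ D : ℕ, InClass m p₀ D → Module.rank ℤ (curve (D : F)).toAffine.Point =
              2 * Module.rank ℤ (curve (D : ℚ)).toAffine.Point ∧
            ∀ r : ℕ, Module.rank ℤ (curve (D : ℚ)).toAffine.Point = r →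
              ∀ {b : ℕ} (ρ : (F ≃ₐ[ℚ] F) →* Matrix (Fin b) (Fin b) ℂ),
                Module.rank ℂ (equivariant D ρ) = ((fixedDim ω ρ * r : ℕ) : Cardinal)) ∧
          ∀ c : ℕ, c ≤ 2 → ∀ (a : Fin (2 * c + 3) → ℤ) (D n : Finset (Fin (2 * c + 3)) → ℕ),
            (∀ S : Finset (Fin (2 * c + 3)), S.card = c → InClass m p₀ (D S) ∧
              (∃ u : ℕ, (twist a S).natAbs = D S * u ^ 3) ∧
              AnalyticRank (curve (D S : ℚ)) (n S)) →
            ∀ (Y : Variety) (B : ℕ) {b : ℕ → ℕ}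
              (ρ : ∀ k, (F ≃ₐ[ℚ] F) →* Matrix (Fin (b k)) (Fin (b k)) ℂ), B ≠ 0 →
              (3 * ∏ i ∈ Finset.range k, N i) * ∏ i, (a i).natAbs ∣ B → IsArtinTate Y F B ρ →
              HasOrders (diagonal a) Y B fun i =>
                (∑ j ∈ Finset.range (Y.N + 1), if 2 * c + 1 + 2 * j = i then fixedDim ω (ρ j) else 0) *
                  ∑ S ∈ (Finset.univ : Finset (Fin (2 * c + 3))).powersetCard c, n S := by
  obtain ⟨z, hz, hz0⟩ := exists_z hp₀ hp3
  have hM := PD_pq hm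
  have hMs := PD_star hm
  have hzm : z ∈ PD ((m : ℕ) : Ei) := by
    refine (mem_PD (ne_ei hm)).2 ⟨hz, ?_⟩
    obtain ⟨c, hc⟩ := hpm
    refine hz0.trans ⟨(c : Ei), ?_⟩
    rw [hc]
    push_cast
    rfl
  obtain ⟨Q, hQ, -⟩ := exists_seqS (PD ((m : ℕ) : Ei)) hM hMs hzm ∅
  have hcl : ∀ D : ℕ, InClass m p₀ D → Cn m p₀ D := fun D h =>
    ⟨h.1, h.2.1, h.2.2.1, h.2.2.2.1, h.2.2.2.2.1, h.2.2.2.2.2⟩
  have hdata := fun (D : ℕ) (h : InClass m p₀ D) => dataD hm hz hz0 hzm hQ (hcl D h)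
  have hell : ∀ D : ℕ, D ≠ 0 → (ED ((D : ℕ) : ℚ)).IsElliptic := by
    intro D hD0
    have h6 := ellc (L := ℚ) (c := (D : 𝓞 ℚ)) (Nat.cast_ne_zero.2 hD0)
    simpa using h6
  refine ⟨fun D hD => ?_, NQ Q, TQ Q, fun i => ⟨NQ_sq hQ i, NQ_ne_one hQ i, disc hQ i,
    fun p hp h => NQ_prime hm hQ hp h⟩, fun k => ⟨?_, fun F _ _ ω hF => ?_⟩⟩
  · obtain ⟨-, n, h1, -⟩ := hdata D hD
    exact ⟨n, analyticRank_of (hell D (hcl D hD).ne) h1⟩
  · obtain ⟨F, i1, i2, ω, θ, h1, h2, h3⟩ := exists_F (NQ Q) (TQ Q) k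
    exact ⟨F, i1, i2, ω, h1, θ, h2, h3⟩
  · obtain ⟨hω, θ, hθ, hgen⟩ := hF
    obtain ⟨φ, x, hφ, C, hrk⟩ := mkCA hm hQ hω (fun i : Fin k => θ i) (fun i => hθ i i.2)
      (fun M h1 h2 => hgen M h1 fun i hi => h2 ⟨i, hi⟩)
    have hG := C.gal
    refine ⟨hG, C.deg, C.comm, fun D hD => ?_, fun c hc a D n hD Y B b ρ hB hBd hY => ?_⟩
    · have hD0 := (hcl D hD).ne
      obtain ⟨h1, q, hq, hst⟩ := hrk D hD0 ((hdata D hD).1 k)
      refine ⟨h1, fun r hr b ρ => ?_⟩
      have ha : ((D : ℕ) : F) = algebraMap ℚ F ((D : ℕ) : ℚ) := by rw [map_natCast]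
      obtain ⟨s₀, hs₀, -⟩ := C.surj False 0
      rw [hφ] at hs₀
      have hr' : Module.rank ℤ (ED ((D : ℕ) : ℚ)).toAffine.Point = r := by
        rw [← hr]
        rfl
      have h2 := mw_rank (k := ℚ) (F := F) (D := ((D : ℕ) : ℚ)) hω (s₀ := s₀)
        (fun h => hs₀.1 h) (Nat.cast_ne_zero.2 hD0) ha hq (fun P σ hσ => hst P σ hσ _) ρ (r := r)
        ((rank_inst _ _ _).trans hr')
      rw [fix_sub] at h2
      rw [equiv_eq D ha ρ]
      refine h2.trans ?_
      rw [mul_comm]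
    · have h3B : 3 ∣ B := (((dvd_mul_right 3 _).mul_right _)).trans hBd
      have hNB : ∀ i : Fin k, NQ Q i ∣ B := by
        intro i
        refine (Dvd.dvd.mul_right (Dvd.dvd.mul_left (Finset.dvd_prod_of_mem (fun i => NQ Q i)
          (Finset.mem_range.2 i.2)) _) _).trans hBd
      have haB : ∀ p : ℕ, p.Prime → ¬ p ∣ B → ∀ i, ¬ (p : ℤ) ∣ a i := by
        intro p hp hpB i h
        apply hpB
        refine (Dvd.dvd.mul_left ?_ _).trans hBd
        exact (Int.natCast_dvd.1 h).trans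
          (Finset.dvd_prod_of_mem (fun i => (a i).natAbs) (Finset.mem_univ i))
      have hU : ∀ S : Finset (Fin (2 * c + 3)), ∃ u : ℕ, S.card = c →
          (twist a S).natAbs = D S * u ^ 3 := by
        intro S
        by_cases hS : S.card = c
        · obtain ⟨u, hu⟩ := (hD S hS).2.1
          exact ⟨u, fun _ => hu⟩
        · exact ⟨0, fun h => absurd h hS⟩
      choose U hU using hU
      have hDB : ∀ S : Finset (Fin (2 * c + 3)), S.card = c → ∀ p : ℕ, p.Prime → p ∣ D S → p ∣ B := by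
        intro S hS p hp hpD
        by_contra hcon
        have h1 : p ∣ (twist a S).natAbs := by
          rw [hU S hS]
          exact hpD.mul_right _
        have h2 : (p : ℤ) ∣ twist a S := Int.natCast_dvd.2 h1
        have hpp : Prime (p : ℤ) := Nat.prime_iff_prime_int.1 hp
        unfold twist at h2
        rcases hpp.dvd_or_dvd h2 with h | h
        · obtain ⟨i, -, hi⟩ := (hpp.dvd_finsetProd_iff _).1 h
          exact haB p hp hcon i hi
        · obtain ⟨i, -, hi⟩ := (hpp.dvd_finsetProd_iff _).1 h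
          exact haB p hp hcon i hi
      have hGex : ∀ S : Finset (Fin (2 * c + 3)), ∃ G : (Fin k → ZMod 3) → ℂ → ℂ, S.card = c →
          (∀ t, HL (tw ((D S : ℕ) : Ei) (fun i : Fin k => dS Q i) t) ((B : ℕ) : Ei) (G t)) ∧
          (∀ t, t ≠ 0 → G t 1 ≠ 0) ∧ analyticOrderAt (G 0) 1 = n S := by
        intro S
        by_cases hS : S.card = c
        · obtain ⟨h1, -, h3⟩ := hD S hS
          obtain ⟨-, n', h4, h5⟩ := hdata (D S) h1
          have h6 : n' = n S := analyticRank_unique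
            (analyticRank_of (hell (D S) (hcl (D S) h1).ne) h4) h3
          obtain ⟨G, g1, g2, g3⟩ := h5 k B hB (hDB S hS) hNB
          exact ⟨G, fun _ => ⟨g1, g2, by rw [g3, h6]⟩⟩
        · exact ⟨fun _ _ => 0, fun h => absurd h hS⟩
      choose G hGG using hGex
      choose v σ hv hσ hσ' using fun p : Nat.Primes => exists_frb (F := F) hG p.2
      have hβ' : ∀ p : Nat.Primes, ∃ β : ZMod p → ℂ, ¬ (p : ℕ) ∣ B →
          (have := Fact.mk p.2; Pool.Agent.N883.DQ.IsBeta β) := by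
        intro p
        have := Fact.mk p.2
        by_cases hp : (p : ℕ) ∣ B
        · exact ⟨0, fun h => absurd hp h⟩
        · obtain ⟨β, hβ⟩ := exists_b (p := p) (by
            intro h3
            apply hp
            rw [h3]
            exact h3B)
          exact ⟨β, fun _ => hβ⟩
      choose β hβ using hβ'
      have hE : ∀ p : Nat.Primes, ¬ (p : ℕ) ∣ B →
          ∀ γ ∈ Pool.Agent.N883.DQ.eigs c a p fun δ => β p ((δ : ℤ) : ZMod p),
            ‖γ‖ ^ 2 = ((p : ℕ) : ℝ) ^ (2 * c + 1) := by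
        intro p hp γ hγ
        have := Fact.mk p.2
        obtain ⟨S, hS⟩ := Pool.Agent.N883.DQ.eigs_mem hγ
        have hD' : ¬ ((p : ℕ) : ℤ) ∣ Pool.Agent.N883.DQ.Dt a S := by
          have hpp : Prime ((p : ℕ) : ℤ) := Nat.prime_iff_prime_int.1 p.2
          intro h
          unfold Pool.Agent.N883.DQ.Dt at h
          rcases hpp.dvd_or_dvd h with h | h
          · obtain ⟨i, -, hi⟩ := (hpp.dvd_finsetProd_iff _).1 h
            exact haB p p.2 hp i hi
          · obtain ⟨i, -, hi⟩ := (hpp.dvd_finsetProd_iff _).1 h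
            exact haB p p.2 hp i hi
        have h2 := beta_mul (hβ p hp) hD'
        rcases hS with rfl | rfl
        · exact Pool.Agent.N883.DQ.sq_of h2 c
        · refine Pool.Agent.N883.DQ.sq_of ?_ c
          rw [Complex.conj_conj, mul_comm]
          exact h2
      refine ⟨fun p i => Aw (2 * c + 1) Y.N ((p : ℕ) : ℂ)
        (Pool.Agent.N883.DQ.eigs c a p fun δ => β p ((δ : ℤ) : ZMod p))
        (fun k => ev (ρ k (σ p)⁻¹)) i, fun p hp => ⟨fun i α hα => ?_, ?_⟩, ?_, fun i hi => ?_⟩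
      · exact Aw_weight (hE p hp) (fun k x hx => norm_rho (ρ k) _ hx) i hα
      · refine ⟨2 * (2 * c + 1 + Y.N), fun i hi => Aw_top le_rfl _ _ _ hi, fun L _ _ n hL => ?_⟩
        have := Fact.mk p.2
        have h5 : ((((diagonal a).points L ×ˢ Y.points L).ncard : ℕ) : ℂ) =
            ((PC (m := 2 * c + 3) a L).ncard : ℂ) * ((Y.points L).ncard : ℂ) := by
          rw [Set.ncard_prod, Nat.cast_mul, points_diagonal]
          rfl
        rw [h5, count_odd (hβ p hp) hc (fun i => haB p p.2 hp i) L n hL,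
          hY p (v p) (σ p) p.2 hp (hv p) (hσ p) L n hL]
        refine Eq.trans ?_ (Aw_count (n := 2 * c + 1) (N := Y.N) ⟨c, rfl⟩ le_rfl _ _ _ _).symm
        congr 1
        refine Finset.sum_congr rfl fun k _ => ?_
        rw [trace_ev]
      · refine ⟨fun i => (∑ k ∈ Finset.range (Y.N + 1), if 2 * c + 1 + 2 * k = i then
            (2 * (2 * c + 3).choose c) * b k else 0) +
          ∑ j ∈ Finset.range (2 * c + 1 + 1), ∑ k ∈ Finset.range (Y.N + 1),
            if 2 * (j + k) = i then b k else 0, fun p hp i => (Aw_card _ _ _ _ _ _).trans ?_⟩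
        simp only [card_ev, Pool.Agent.N883.DQ.eigs_card, Fintype.card_fin]
      · obtain ⟨L, h1, h2, h3⟩ := main_L C h3B hNB haB (D := D) (U := U) (fun S hS => hU S hS)
          (G := G) (fun S hS => (hGG S hS).1) (fun S hS => (hGG S hS).2.1) Y.N ρ hv hσ' hβ hi
        refine ⟨L, h1, h2, ?_⟩
        rw [h3]
        push_cast
        rw [Finset.sum_mul]
        refine Finset.sum_congr rfl fun j _ => ?_
        rw [ite_mul, zero_mul]
        split_ifs with hji
        · rw [fixed_eq C (ρ j), hφ]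
          congr 1
          refine Finset.sum_congr rfl fun S hS => ?_
          rw [(hGG S (Finset.mem_powersetCard.1 hS).2).2.2]
        · rfl

end proof

/-- **Main theorem.**  Let `m ≥ 1` and let `p₀ ≠ 3` be a prime dividing `m`.  The curves
`E_D : y² + D y = x³` over `ℚ` with `D` in the class have an analytic rank.  There is an infinite sequence
of cyclic cubics `t³ - 3 N_i t - T_i` (`N_i ≠ 1` squarefree, composed of primes `≡ 1` modulo `9` prime to
`m` and to the other `N_l`; the discriminant is a square) such that for all `k` there is a field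
`F = ℚ(ω, θ_0, …, θ_{k-1})`, it is an abelian extension of `ℚ`, of degree `2 · 3 ^ k`, and:
for all the `D` in the class the rank of `E_D(F)` is twice the one of `E_D(ℚ)`, and the space of the
equivariant homomorphisms from `E_D(F)` to any representation `ρ` of `Gal(F/ℚ)` has the dimension
`fixedDim ω ρ · rank E_D(ℚ)`; and for all `c ≤ 2`, all
the diagonal cubics `X_a` of dimension `2 c + 1` such that `δ_S = ± D_S u³` with `D_S` in the class and
`E_{D_S}` of analytic rank `n_S` for all `S` with `c` elements, *all* the projective varieties `Y` of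
Artin–Tate type split by `F`, with representations `ρ_j`, and all the odd `i`: the function
`L(H^i(X_a × Y), s)` is entire and its order at `s = (i + 1) / 2` is
`fixedDim ω ρ_j · ∑_S n_S`, `2 c + 1 + 2 j = i` (`0` if there is no such `j ≤ dim`). -/
theorem result (m p₀ : ℕ) (hm : m ≠ 0) (hp₀ : p₀.Prime) (hp3 : p₀ ≠ 3) (hpm : p₀ ∣ m) :
    (∀ D : ℕ, InClass m p₀ D → ∃ n : ℕ, AnalyticRank (curve (D : ℚ)) n) ∧
    ∃ (N : ℕ → ℕ) (T : ℕ → ℤ),
      (∀ i, Squarefree (N i) ∧ N i ≠ 1 ∧ (∃ e : ℤ, 4 * (N i : ℤ) ^ 3 - T i ^ 2 = 27 * e ^ 2) ∧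
        ∀ p : ℕ, p.Prime → p ∣ N i → p % 9 = 1 ∧ ¬ p ∣ m ∧ ∀ l, l ≠ i → ¬ p ∣ N l) ∧
      ∀ k : ℕ,
        (∃ (F : Type) (_ : Field F) (_ : NumberField F) (ω : F), Generated N T k ω) ∧
        ∀ (F : Type) [Field F] [NumberField F] (ω : F), Generated N T k ω →
          IsGalois ℚ F ∧ Module.finrank ℚ F = 2 * 3 ^ k ∧ (∀ σ τ : F ≃ₐ[ℚ] F, σ * τ = τ * σ) ∧
          (∀ D : ℕ, InClass m p₀ D → Module.rank ℤ (curve (D : F)).toAffine.Point =
              2 * Module.rank ℤ (curve (D : ℚ)).toAffine.Point ∧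
            ∀ r : ℕ, Module.rank ℤ (curve (D : ℚ)).toAffine.Point = r →
              ∀ {b : ℕ} (ρ : (F ≃ₐ[ℚ] F) →* Matrix (Fin b) (Fin b) ℂ),
                Module.rank ℂ (equivariant D ρ) = ((fixedDim ω ρ * r : ℕ) : Cardinal)) ∧
          ∀ c : ℕ, c ≤ 2 → ∀ (a : Fin (2 * c + 3) → ℤ) (D n : Finset (Fin (2 * c + 3)) → ℕ),
            (∀ S : Finset (Fin (2 * c + 3)), S.card = c → InClass m p₀ (D S) ∧
              (∃ u : ℕ, (twist a S).natAbs = D S * u ^ 3) ∧
              AnalyticRank (curve (D S : ℚ)) (n S)) →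
            ∀ (Y : Variety) (B : ℕ) {b : ℕ → ℕ}
              (ρ : ∀ k, (F ≃ₐ[ℚ] F) →* Matrix (Fin (b k)) (Fin (b k)) ℂ), B ≠ 0 →
              (3 * ∏ i ∈ Finset.range k, N i) * ∏ i, (a i).natAbs ∣ B → IsArtinTate Y F B ρ →
              HasOrders (diagonal a) Y B fun i =>
                (∑ j ∈ Finset.range (Y.N + 1), if 2 * c + 1 + 2 * j = i then fixedDim ω (ρ j) else 0) *
                  ∑ S ∈ (Finset.univ : Finset (Fin (2 * c + 3))).powersetCard c, n S :=
  main m p₀ hm hp₀ hp3 hpm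

end Pool.Agent.Results.MP_29b22a_nt.StableTowers
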